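import Mathlib

namespace Pool.Agent.Work.MP_677830_co

/-- The orientation determinant `det (b - a, c - a)` of three points of the plane. -/
def orient (a b c : EuclideanSpace ℝ (Fin 2)) : ℝ :=
  (b 0 - a 0) * (c 1 - a 1) - (b 1 - a 1) * (c 0 - a 0)

/-- No three distinct points of `S` are collinear. -/
def GeneralPosition (S : Finset (EuclideanSpace ℝ (Fin 2))) : Prop :=
  ∀ a ∈ S, ∀ b ∈ S, ∀ c ∈ S, a ≠ b → a ≠ c → b ≠ c →
    ¬ Collinear ℝ ({a, b, c} : Set (EuclideanSpace ℝ (Fin 2)))

/-- `S` has the same order type as a point set with all pairwise distances integers: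
an injective map on `S` preserves the sign of every orientation determinant, and the image
points are at integer distances from each other. -/
def IntegerRealizable (S : Finset (EuclideanSpace ℝ (Fin 2))) : Prop :=
  ∃ φ : EuclideanSpace ℝ (Fin 2) → EuclideanSpace ℝ (Fin 2),
    Set.InjOn φ S ∧
    (∀ a ∈ S, ∀ b ∈ S, ∀ c ∈ S,
      SignType.sign (orient (φ a) (φ b) (φ c)) = SignType.sign (orient a b c)) ∧
    ∀ a ∈ S, ∀ b ∈ S, ∃ n : ℤ, dist (φ a) (φ b) = n

end Pool.Agent.Work.MP_677830_co
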