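import Mathlib
import Pool.Agent.Work.MP_677830_co.Defs

-- merged part: Pool.Agent.Work.MP_677830_co.Curve
section
/-!
Rational points on the Jacobi intersection `s^2 + c^2 = 1`, `e^2 + (24/49) s^2 = 1`
are dense.
-/

namespace Pool.Agent.Work.MP_677830_co

/-- points of the curve -/
def Good (s c e : ℚ) : Prop := c ^ 2 = 1 - s ^ 2 ∧ e ^ 2 = 1 - (24 / 49) * s ^ 2

lemma Good.s_sq_le {s c e : ℚ} (h : Good s c e) : s ^ 2 ≤ 1 := by
  have := h.1; linarith only [this, sq_nonneg c, sq_nonneg c]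

lemma Good.den_pos {s1 c1 e1 s2 c2 e2 : ℚ} (h1 : Good s1 c1 e1) (h2 : Good s2 c2 e2) :
    (25 / 49 : ℚ) ≤ 1 - (24 / 49) * s1 ^ 2 * s2 ^ 2 := by
  have a := h1.s_sq_le
  have b := h2.s_sq_le
  have : s1 ^ 2 * s2 ^ 2 ≤ 1 := by
    have := mul_le_mul a b (sq_nonneg _) zero_le_one
    simpa using this
  linarith only [this]

lemma Good.add {s1 c1 e1 s2 c2 e2 : ℚ} (h1 : Good s1 c1 e1) (h2 : Good s2 c2 e2) :
    Good ((s1 * c2 * e2 + s2 * c1 * e1) / (1 - (24 / 49) * s1 ^ 2 * s2 ^ 2))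
      ((c1 * c2 - s1 * s2 * e1 * e2) / (1 - (24 / 49) * s1 ^ 2 * s2 ^ 2))
      ((e1 * e2 - (24 / 49) * s1 * s2 * c1 * c2) / (1 - (24 / 49) * s1 ^ 2 * s2 ^ 2)) := by
  have hD := h1.den_pos h2
  have hD0 : (1 - (24 / 49) * s1 ^ 2 * s2 ^ 2 : ℚ) ≠ 0 := by linarith only [hD]
  obtain ⟨a1, b1⟩ := h1
  obtain ⟨a2, b2⟩ := h2
  have e1' : (s1 * c2 * e2 + s2 * c1 * e1) ^ 2 + (c1 * c2 - s1 * s2 * e1 * e2) ^ 2
      = (1 - (24 / 49) * s1 ^ 2 * s2 ^ 2) ^ 2 := by
    have : (s1 * c2 * e2 + s2 * c1 * e1) ^ 2 + (c1 * c2 - s1 * s2 * e1 * e2) ^ 2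
        = s1 ^ 2 * c2 ^ 2 * e2 ^ 2 + s2 ^ 2 * c1 ^ 2 * e1 ^ 2 + c1 ^ 2 * c2 ^ 2
          + s1 ^ 2 * s2 ^ 2 * e1 ^ 2 * e2 ^ 2 := by ring
    rw [this, a1, a2, b1, b2]; ring
  have e2' : (24 / 49) * (s1 * c2 * e2 + s2 * c1 * e1) ^ 2
      + (e1 * e2 - (24 / 49) * s1 * s2 * c1 * c2) ^ 2
      = (1 - (24 / 49) * s1 ^ 2 * s2 ^ 2) ^ 2 := by
    have : (24 / 49) * (s1 * c2 * e2 + s2 * c1 * e1) ^ 2
        + (e1 * e2 - (24 / 49) * s1 * s2 * c1 * c2) ^ 2
        = (24 / 49) * (s1 ^ 2 * c2 ^ 2 * e2 ^ 2 + s2 ^ 2 * c1 ^ 2 * e1 ^ 2) + e1 ^ 2 * e2 ^ 2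
          + (24 / 49) ^ 2 * s1 ^ 2 * s2 ^ 2 * c1 ^ 2 * c2 ^ 2 := by ring
    rw [this, a1, a2, b1, b2]; ring
  constructor
  · rw [div_pow, div_pow, eq_sub_iff_add_eq, ← add_div, add_comm, e1']
    exact div_self (pow_ne_zero 2 hD0)
  · rw [div_pow, div_pow, eq_sub_iff_add_eq, ← mul_div_assoc, ← add_div, add_comm, e2']
    exact div_self (pow_ne_zero 2 hD0)

lemma Good.abs {s c e : ℚ} (h : Good s c e) : Good |s| |c| |e| := by
  obtain ⟨a, b⟩ := h
  constructor <;> simp only [sq_abs] <;> assumption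

lemma Good.neg {s c e : ℚ} (h : Good s c e) : Good (-s) c e := by
  obtain ⟨a, b⟩ := h
  constructor <;> simp only [neg_sq] <;> assumption

/-- `1 - x` has valuation zero when `x` has positive valuation. -/
lemma val_one_sub {x : ℚ} (hx : 0 < padicValRat 2 x) : padicValRat 2 (1 - x) = 0 ∧ 1 - x ≠ 0 := by
  have hne : 1 - x ≠ 0 := by
    intro h
    have : x = 1 := by linarith only [h]
    rw [this] at hx; simp at hx
  refine ⟨?_, hne⟩
  have hx0 : x ≠ 0 := by rintro rfl; simp at hx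
  have h := padicValRat.add_eq_of_lt (p := 2) (q := 1) (r := -x)
    (by simpa [sub_eq_add_neg] using hne) one_ne_zero (neg_ne_zero.mpr hx0)
    (by simpa using hx)
  simpa [sub_eq_add_neg] using h

lemma val_k : padicValRat 2 (24 / 49 : ℚ) = 3 := by
  have h1 : padicValRat 2 (24 : ℚ) = 3 := by
    have : (24 : ℚ) = ((24 : ℕ) : ℚ) := by norm_num
    rw [this, padicValRat.of_nat]
    have : padicValNat 2 24 = 3 := by
      have : (24 : ℕ) = 2 ^ 3 * 3 := by norm_num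
      rw [this, padicValNat.mul (by norm_num) (by norm_num), padicValNat.prime_pow,
        padicValNat.eq_zero_of_not_dvd (by norm_num)]
    rw [this]; rfl
  have h2 : padicValRat 2 (49 : ℚ) = 0 := by
    have : (49 : ℚ) = ((49 : ℕ) : ℚ) := by norm_num
    rw [this, padicValRat.of_nat, padicValNat.eq_zero_of_not_dvd (by norm_num)]; rfl
  rw [padicValRat.div (by norm_num) (by norm_num), h1, h2]; rfl

lemma double_val {s c e : ℚ} (h : Good s c e) (hs : 0 < padicValRat 2 s) :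
    ∃ s' c' e' : ℚ, Good s' c' e' ∧ padicValRat 2 s' = padicValRat 2 s + 1 := by
  refine ⟨_, _, _, h.add h, ?_⟩
  have hs0 : s ≠ 0 := by rintro rfl; simp at hs
  have hsq : padicValRat 2 (s ^ 2) = 2 * padicValRat 2 s := by
    rw [padicValRat.pow]; rfl
  have hc := val_one_sub (x := s ^ 2) (by rw [hsq]; omega)
  have hks : padicValRat 2 ((24 / 49) * s ^ 2) = 3 + 2 * padicValRat 2 s := by
    rw [padicValRat.mul (by norm_num) (pow_ne_zero 2 hs0), val_k, hsq]
  have he := val_one_sub (x := (24 / 49) * s ^ 2) (by rw [hks]; omega)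
  have hD := val_one_sub (x := (24 / 49) * s ^ 2 * s ^ 2) (by
    rw [padicValRat.mul (mul_ne_zero (by norm_num) (pow_ne_zero 2 hs0)) (pow_ne_zero 2 hs0),
      hks, hsq]; omega)
  rw [← h.1] at hc
  rw [← h.2] at he
  have hc0 : c ≠ 0 := by rintro rfl; simp at hc
  have he0 : e ≠ 0 := by rintro rfl; simp at he
  have hcv : padicValRat 2 c = 0 := by
    have := hc.1; rw [padicValRat.pow] at this; simpa using this
  have hev : padicValRat 2 e = 0 := by
    have := he.1; rw [padicValRat.pow] at this; simpa using this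
  have : s * c * e + s * c * e = 2 * (s * c * e) := by ring
  rw [this, padicValRat.div (by positivity) hD.2, hD.1,
    padicValRat.mul (by norm_num) (by positivity), padicValRat.mul (by positivity) he0,
    padicValRat.mul hs0 hc0, hcv, hev]
  have : padicValRat 2 (2 : ℚ) = 1 := by
    have := padicValRat.self (p := 2) (by norm_num)
    simpa using this
  rw [this]; ring

lemma exists_val (n : ℕ) : ∃ s c e : ℚ, Good s c e ∧ padicValRat 2 s = n + 2 := by
  induction n with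
  | zero =>
    refine ⟨4 / 5, 3 / 5, 29 / 35, ⟨by norm_num, by norm_num⟩, ?_⟩
    have h1 : padicValRat 2 (4 : ℚ) = 2 := by
      have : (4 : ℚ) = ((2 ^ 2 : ℕ) : ℚ) := by norm_num
      rw [this, padicValRat.of_nat, padicValNat.prime_pow]; rfl
    have h2 : padicValRat 2 (5 : ℚ) = 0 := by
      have : (5 : ℚ) = ((5 : ℕ) : ℚ) := by norm_num
      rw [this, padicValRat.of_nat, padicValNat.eq_zero_of_not_dvd (by norm_num)]; rfl
    rw [padicValRat.div (by norm_num) (by norm_num), h1, h2]; rfl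
  | succ n ih =>
    obtain ⟨s, c, e, h, hv⟩ := ih
    obtain ⟨s', c', e', h', hv'⟩ := double_val h (by rw [hv]; omega)
    exact ⟨s', c', e', h', by rw [hv', hv]; push_cast; ring⟩

lemma diff_ne {s1 c1 e1 s2 c2 e2 : ℚ} (h1 : Good s1 c1 e1) (h2 : Good s2 c2 e2)
    (hne : s1 ^ 2 ≠ s2 ^ 2) : s1 * c2 * e2 + (-s2) * c1 * e1 ≠ 0 := by
  intro h
  have hD := h1.den_pos h2
  have h3 : s1 * c2 * e2 = s2 * c1 * e1 := by linarith only [h]
  have h4 : s1 ^ 2 * c2 ^ 2 * e2 ^ 2 = s2 ^ 2 * c1 ^ 2 * e1 ^ 2 := by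
    have := congrArg (· ^ 2) h3
    simp only [mul_pow] at this; exact this
  rw [h1.1, h1.2, h2.1, h2.2] at h4
  have : (s1 ^ 2 - s2 ^ 2) * (1 - (24 / 49) * s1 ^ 2 * s2 ^ 2) = 0 := by linarith only [h4]
  rcases mul_eq_zero.mp this with h | h
  · exact hne (by linarith only [h])
  · linarith only [hD, h]

lemma Good.abs_le {s c e : ℚ} (h : Good s c e) : |s| ≤ 1 ∧ |c| ≤ 1 ∧ |e| ≤ 1 := by
  have := h.s_sq_le
  have a := h.1
  have b := h.2
  refine ⟨?_, ?_, ?_⟩ <;> apply abs_le_one_iff_mul_self_le_one.mpr <;> linarith only [this, a, b, sq_nonneg s, sq_nonneg s]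

/-- there are points with arbitrarily small positive `s` -/
lemma exists_small (ε : ℝ) (hε : 0 < ε) :
    ∃ s c e : ℚ, Good s c e ∧ 0 < s ∧ (s : ℝ) < ε ∧ 0 ≤ c ∧ 0 ≤ e := by
  choose s c e hg hv using exists_val
  let u : ℕ → ℝ × ℝ × ℝ := fun n => ((s n : ℝ), (c n : ℝ), (e n : ℝ))
  have hb : ∀ n, u n ∈ Metric.closedBall (0 : ℝ × ℝ × ℝ) 1 := by
    intro n
    obtain ⟨a1, a2, a3⟩ := (hg n).abs_le
    rw [mem_closedBall_zero_iff]
    simp only [u, Prod.norm_def, Real.norm_eq_abs, max_le_iff]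
    refine ⟨?_, ?_, ?_⟩ <;> exact_mod_cast ‹_›
  obtain ⟨a, -, φ, hφ, hlim⟩ := (isCompact_closedBall (0 : ℝ × ℝ × ℝ) 1).tendsto_subseq hb
  obtain ⟨N, hN⟩ := Metric.cauchySeq_iff.mp hlim.cauchySeq (ε / 8) (by positivity)
  have hd := hN N le_rfl (N + 1) (Nat.le_succ N)
  set i := φ N
  set j := φ (N + 1)
  have hij : i ≠ j := (hφ (Nat.lt_succ_self N)).ne
  have hne : s i ^ 2 ≠ s j ^ 2 := by
    intro h
    have h' : |s i| = |s j| := by
      rw [← sq_eq_sq₀ (abs_nonneg _) (abs_nonneg _), sq_abs, sq_abs]; exact h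
    have hv' : padicValRat 2 (s i) = padicValRat 2 (s j) := by
      rcases abs_eq_abs.mp h' with h'' | h''
      · rw [h'']
      · rw [h'', padicValRat.neg]
    rw [hv, hv] at hv'
    exact hij (by omega)
  have hG := ((hg i).add (hg j).neg).abs
  have hD := (hg i).den_pos (hg j).neg
  have hn := diff_ne (hg i) (hg j) hne
  refine ⟨_, _, _, hG, ?_, ?_, abs_nonneg _, abs_nonneg _⟩
  · exact abs_pos.mpr (div_ne_zero hn (by linarith only [hD]))
  · simp only [Function.comp, u, Prod.dist_eq, Real.dist_eq, max_lt_iff] at hd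
    obtain ⟨d1, d2, d3⟩ := hd
    obtain ⟨a1, a2, a3⟩ := (hg i).abs_le
    obtain ⟨b1, b2, b3⟩ := (hg j).abs_le
    have key : |s i * c j * e j + (-s j) * c i * e i|
        ≤ |s i - s j| + |c i - c j| + |e i - e j| := by
      have : s i * c j * e j + (-s j) * c i * e i
          = (s i - s j) * (c j * e j) - (c i - c j) * (s j * e j) - (e i - e j) * (s j * c i) := by
        ring
      rw [this]
      have m1 : |c j * e j| ≤ 1 := by rw [abs_mul]; exact mul_le_one₀ b2 (abs_nonneg _) b3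
      have m2 : |s j * e j| ≤ 1 := by rw [abs_mul]; exact mul_le_one₀ b1 (abs_nonneg _) b3
      have m3 : |s j * c i| ≤ 1 := by rw [abs_mul]; exact mul_le_one₀ b1 (abs_nonneg _) a2
      have t1 := mul_le_of_le_one_right (abs_nonneg (s i - s j)) m1
      have t2 := mul_le_of_le_one_right (abs_nonneg (c i - c j)) m2
      have t3 := mul_le_of_le_one_right (abs_nonneg (e i - e j)) m3
      rw [← abs_mul] at t1 t2 t3
      have := abs_sub ((s i - s j) * (c j * e j) - (c i - c j) * (s j * e j))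
        ((e i - e j) * (s j * c i))
      have := abs_sub ((s i - s j) * (c j * e j)) ((c i - c j) * (s j * e j))
      linarith
    have key2 : |(s i * c j * e j + (-s j) * c i * e i) / (1 - (24 / 49) * s i ^ 2 * (-s j) ^ 2)|
        ≤ 2 * (|s i - s j| + |c i - c j| + |e i - e j|) := by
      rw [abs_div, abs_of_pos (by linarith only [hD] : (0 : ℚ) < 1 - (24 / 49) * s i ^ 2 * (-s j) ^ 2),
        div_le_iff₀ (by linarith only [hD])]
      have := abs_nonneg (s i * c j * e j + (-s j) * c i * e i)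
      linarith only [key, this, hD, mul_nonneg_of_nonpos_of_nonpos (Mathlib.Tactic.Linarith.sub_nonpos_of_le hD) (Mathlib.Tactic.Linarith.sub_nonpos_of_le key), mul_nonneg_of_nonpos_of_nonpos (Mathlib.Tactic.Linarith.sub_nonpos_of_le hD) (Mathlib.Tactic.Linarith.sub_nonpos_of_le this)]
    have key3 : ((|(s i * c j * e j + (-s j) * c i * e i)
        / (1 - (24 / 49) * s i ^ 2 * (-s j) ^ 2)| : ℚ) : ℝ)
        ≤ 2 * (|(s i : ℝ) - s j| + |(c i : ℝ) - c j| + |(e i : ℝ) - e j|) := by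
      exact_mod_cast key2
    linarith only [hε, d1, d2, d3, key3]

/-- one small step -/
lemma step {s1 c1 e1 s c e κ : ℚ} (h1 : Good s1 c1 e1) (h : Good s c e)
    (hs1 : 0 ≤ s1) (hκ : 0 < κ) (hc1 : κ ≤ c1) (he1 : 0 ≤ e1) (hs : 0 < s) (hc : 0 ≤ c)
    (he : 0 ≤ e) (hsk : s ≤ κ / 8) :
    ∃ s3 c3 e3 : ℚ, Good s3 c3 e3 ∧ s1 + κ * s / 4 ≤ s3 ∧ s3 ≤ s1 + 4 * s := by
  refine ⟨_, _, _, h1.add h, ?_, ?_⟩
  all_goals
    have hD := h1.den_pos h
    obtain ⟨a1, a2, a3⟩ := h1.abs_le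
    obtain ⟨b1, b2, b3⟩ := h.abs_le
    rw [abs_le] at a1 a2 a3 b1 b2 b3
    have hc' : 1 - s ^ 2 ≤ c := by have := h.1; linarith only [this, hc, b2, mul_nonneg_of_nonpos_of_nonpos (Mathlib.Tactic.Linarith.sub_nonpos_of_le hc) (Mathlib.Tactic.Linarith.sub_nonpos_of_le b2.right)]
    have he' : 1 - s ^ 2 ≤ e := by have := h.2; linarith only [this, hs, he, b3, sq_nonneg s, mul_pos_of_neg_of_neg (Mathlib.Tactic.Linarith.sub_neg_of_lt hs) (Mathlib.Tactic.Linarith.sub_neg_of_lt hs), mul_nonneg_of_nonpos_of_nonpos (Mathlib.Tactic.Linarith.sub_nonpos_of_le he) (Mathlib.Tactic.Linarith.sub_nonpos_of_le b3.right)]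
    have he1' : 1 / 2 ≤ e1 := by have := h1.2; have := h1.s_sq_le; nlinarith
    have hs2 : s ^ 2 ≤ 1 := h.s_sq_le
    have hce : 1 - 2 * s ^ 2 ≤ c * e := by
      have := mul_le_mul hc' he' (by linarith only [hs2]) hc
      linarith only [this, sq_nonneg (s ^ 2), sq_nonneg (s ^ (2 : ℕ))]
    have hce1 : c * e ≤ 1 := mul_le_one₀ b2.2 he b3.2
    have hce2 : c1 * e1 ≤ 1 := mul_le_one₀ a2.2 he1 a3.2
    have hce3 : κ / 2 ≤ c1 * e1 := by linarith only [hκ, he1', hc1, he1, mul_nonneg_of_nonpos_of_nonpos (le_of_lt (Mathlib.Tactic.Linarith.sub_neg_of_lt hκ)) (Mathlib.Tactic.Linarith.sub_nonpos_of_le he1'), mul_nonneg_of_nonpos_of_nonpos (Mathlib.Tactic.Linarith.sub_nonpos_of_le hc1) (Mathlib.Tactic.Linarith.sub_nonpos_of_le he1)]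
    have hX : 0 ≤ s1 ^ 2 * s ^ 2 := by positivity
    have hX1 : s1 ^ 2 * s ^ 2 ≤ s ^ 2 := by
      have := h1.s_sq_le; linarith only [this, sq_nonneg s, mul_nonneg_of_nonpos_of_nonpos (Mathlib.Tactic.Linarith.sub_nonpos_of_le (sq_nonneg s)) (Mathlib.Tactic.Linarith.sub_nonpos_of_le this)]
  · rw [le_div_iff₀ (by linarith only [hc1, hs, hsk, hD, a2])]
    have t1 : (s1 + κ * s / 4) * (1 - 24 / 49 * s1 ^ 2 * s ^ 2) ≤ s1 + κ * s / 4 := by
      apply mul_le_of_le_one_right (by positivity); linarith only [hX]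
    have t2 : s1 - 2 * s ^ 2 ≤ s1 * (c * e) := by linarith only [a1, hs1, hce, sq_nonneg s, mul_nonneg_of_nonpos_of_nonpos (Mathlib.Tactic.Linarith.sub_nonpos_of_le (sq_nonneg s)) (Mathlib.Tactic.Linarith.sub_nonpos_of_le a1.right), mul_nonneg_of_nonpos_of_nonpos (Mathlib.Tactic.Linarith.sub_nonpos_of_le hs1) (Mathlib.Tactic.Linarith.sub_nonpos_of_le hce)]
    have t3 : s * (κ / 2) ≤ s * (c1 * e1) := by gcongr
    have t4 : 2 * s ^ 2 ≤ κ * s / 4 := by linarith only [hs, hsk, mul_nonneg_of_nonpos_of_nonpos (le_of_lt (Mathlib.Tactic.Linarith.sub_neg_of_lt hs)) (Mathlib.Tactic.Linarith.sub_nonpos_of_le hsk)]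
    linarith only [t1, t2, t3, t4]
  · rw [div_le_iff₀ (by linarith only [hc1, hs, hsk, hD, a2])]
    have t2 : s1 * (c * e) ≤ s1 := mul_le_of_le_one_right hs1 hce1
    have t3 : s * (c1 * e1) ≤ s := mul_le_of_le_one_right hs.le hce2
    have t4 : s1 * (s1 ^ 2 * s ^ 2) ≤ s := by
      have u1 : s1 * (s1 ^ 2 * s ^ 2) ≤ s1 ^ 2 * s ^ 2 := mul_le_of_le_one_left hX a1.2
      have u2 : s ^ 2 ≤ s := by rw [sq]; exact mul_le_of_le_one_left hs.le b1.2
      linarith only [hX1, u1, u2]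
    have t5 : 4 * s * (25 / 49) ≤ 4 * s * (1 - 24 / 49 * s1 ^ 2 * s ^ 2) := by gcongr
    have t6 : (s1 + 4 * s) * (1 - 24 / 49 * s1 ^ 2 * s ^ 2)
        = s1 - 24 / 49 * (s1 * (s1 ^ 2 * s ^ 2)) + 4 * s * (1 - 24 / 49 * s1 ^ 2 * s ^ 2) := by
      ring
    have t7 : s1 * c * e + s * c1 * e1 = s1 * (c * e) + s * (c1 * e1) := by ring
    rw [t6, t7]
    linarith only [hs, t2, t3, t4, t5]

/-- density of the first coordinate -/
lemma dense_s {α β : ℚ} (h0 : 0 ≤ α) (hab : α < β) (hb : β < 1) :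
    ∃ s c e : ℚ, Good s c e ∧ α < s ∧ s < β ∧ 0 ≤ c ∧ 0 ≤ e := by
  by_contra hcon
  push Not at hcon
  set κ : ℚ := 1 - β with hκ
  have hκ0 : 0 < κ := by linarith
  obtain ⟨s, c, e, h, hs, hsε, hc, he⟩ := exists_small (min (κ / 8) ((β - α) / 5) : ℚ)
    (by exact_mod_cast lt_min (by positivity) (by linarith only [hab]))
  have hsε' : s < min (κ / 8) ((β - α) / 5) := by exact_mod_cast hsε
  rw [lt_min_iff] at hsε'
  have main : ∀ n : ℕ, ∃ s1 c1 e1 : ℚ, Good s1 c1 e1 ∧ n * (κ * s / 4) ≤ s1 ∧ s1 ≤ α := by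
    intro n
    induction n with
    | zero => exact ⟨0, 1, 1, ⟨by norm_num, by norm_num⟩, by simp, h0⟩
    | succ n ih =>
      obtain ⟨s1, c1, e1, h1, hl, hu⟩ := ih
      have hs1 : 0 ≤ s1 := le_trans (by positivity) hl
      have h1' := h1.abs
      rw [abs_of_nonneg hs1] at h1'
      have hc1 : κ ≤ |c1| := by
        have := h1'.1
        have h2 := abs_nonneg c1
        have h3 := h1.abs_le.2.1
        linarith only [hab, this, h0, hb, hu, hs1, h2, h3, mul_nonneg_of_nonpos_of_nonpos (Mathlib.Tactic.Linarith.sub_nonpos_of_le h0) (le_of_lt (Mathlib.Tactic.Linarith.sub_neg_of_lt hab)), mul_nonneg_of_nonpos_of_nonpos (Mathlib.Tactic.Linarith.sub_nonpos_of_le h0) (le_of_lt (Mathlib.Tactic.Linarith.sub_neg_of_lt hb)), mul_nonneg_of_nonpos_of_nonpos (Mathlib.Tactic.Linarith.sub_nonpos_of_le h0) (Mathlib.Tactic.Linarith.sub_nonpos_of_le hu), mul_nonneg_of_nonpos_of_nonpos (Mathlib.Tactic.Linarith.sub_nonpos_of_le hu) (Mathlib.Tactic.Linarith.sub_nonpos_of_le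 hs1), mul_nonneg_of_nonpos_of_nonpos (Mathlib.Tactic.Linarith.sub_nonpos_of_le h2) (Mathlib.Tactic.Linarith.sub_nonpos_of_le h3)]
      obtain ⟨s3, c3, e3, h3, hl3, hu3⟩ :=
        step h1' h hs1 hκ0 hc1 (abs_nonneg _) hs hc he hsε'.1.le
      have hs3 : 0 ≤ s3 := le_trans (by positivity) hl3
      have h3' := h3.abs
      rw [abs_of_nonneg hs3] at h3'
      refine ⟨s3, c3, e3, h3, by push_cast; linarith only [hl, hl3], ?_⟩
      by_contra hgt
      push Not at hgt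
      have := hcon s3 |c3| |e3| h3' hgt (by linarith only [hs, hsε', hu, hu3]) (abs_nonneg _)
      exact absurd (abs_nonneg e3) (not_le.mpr this)
  obtain ⟨n, hn⟩ := exists_nat_gt (α / (κ * s / 4))
  obtain ⟨s1, c1, e1, -, hl, hu⟩ := main n
  rw [div_lt_iff₀ (by positivity)] at hn
  linarith only [hn, hl, hu]

/-- admissible parameters: `z = s / c` for a rational point of the curve -/
def Adm (z : ℝ) : Prop :=
  ∃ s c e : ℚ, Good s c e ∧ 0 < c ∧ 0 ≤ e ∧ z = (s : ℝ) / (c : ℝ)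

lemma Adm.neg {z : ℝ} (h : Adm z) : Adm (-z) := by
  obtain ⟨s, c, e, hg, hc, he, rfl⟩ := h
  exact ⟨-s, c, e, hg.neg, hc, he, by push_cast; ring⟩

lemma adm_dense {α β : ℝ} (h0 : 0 ≤ α) (hab : α < β) : ∃ z, Adm z ∧ α < z ∧ z < β := by
  let f : ℝ → ℝ := fun x => x / Real.sqrt (1 + x ^ 2)
  have hf : ∀ x y, 0 ≤ x → x < y → f x < f y := by
    intro x y hx hxy
    have hy : 0 < y := lt_of_le_of_lt hx hxy
    simp only [f]
    have p1 : 0 < Real.sqrt (1 + x ^ 2) := Real.sqrt_pos.mpr (by positivity)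
    have p2 : 0 < Real.sqrt (1 + y ^ 2) := Real.sqrt_pos.mpr (by positivity)
    rw [div_lt_div_iff₀ p1 p2]
    apply lt_of_pow_lt_pow_left₀ 2 (by positivity)
    rw [mul_pow, mul_pow, Real.sq_sqrt (by positivity), Real.sq_sqrt (by positivity)]
    linarith only [hx, hxy, mul_nonneg_of_nonpos_of_nonpos (Mathlib.Tactic.Linarith.sub_nonpos_of_le hx) (le_of_lt (Mathlib.Tactic.Linarith.sub_neg_of_lt hxy)), mul_pos_of_neg_of_neg (Mathlib.Tactic.Linarith.sub_neg_of_lt hxy) (Mathlib.Tactic.Linarith.sub_neg_of_lt hxy)]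
  have hf0 : 0 ≤ f α := div_nonneg h0 (Real.sqrt_nonneg _)
  have hf1 : f β < 1 := by
    simp only [f]
    rw [div_lt_one (Real.sqrt_pos.mpr (by positivity))]
    exact Real.lt_sqrt_of_sq_lt (by linarith)
  obtain ⟨a, ha1, ha2⟩ := exists_rat_btwn (hf α β h0 hab)
  obtain ⟨b, hb1, hb2⟩ := exists_rat_btwn ha2
  obtain ⟨s, c, e, hg, hs1, hs2, hc, he⟩ := dense_s (α := a) (β := b)
    (by exact_mod_cast (hf0.trans ha1.le)) (by exact_mod_cast hb1)
    (by exact_mod_cast (hb2.trans hf1))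
  have hs1' : f α < s := ha1.trans (by exact_mod_cast hs1)
  have hs2' : (s : ℝ) < f β := lt_trans (by exact_mod_cast hs2) hb2
  have hs0 : (0 : ℝ) < s := lt_of_le_of_lt hf0 hs1'
  have hslt : (s : ℝ) < 1 := hs2'.trans hf1
  have hcsq : (c : ℝ) ^ 2 = 1 - (s : ℝ) ^ 2 := by exact_mod_cast hg.1
  have hc0 : (0 : ℝ) < c := by
    have h1 : (0 : ℝ) ≤ c := by exact_mod_cast hc
    rcases h1.lt_or_eq with h | h
    · exact h
    · rw [← h] at hcsq; linarith only [hs2', hcsq, hf0, hf1, ha1, hb1, hb2, hs1', mul_nonneg_of_nonpos_of_nonpos (Mathlib.Tactic.Linarith.sub_nonpos_of_le hf0) (le_of_lt (Mathlib.Tactic.Linarith.sub_neg_of_lt hf1)), mul_nonneg_of_nonpos_of_nonpos (Mathlib.Tactic.Linarith.sub_nonpos_of_le hf0) (le_of_lt (Mathlib.Tactic.Linarith.sub_neg_of_lt hs2')), mul_pos_of_neg_of_neg (Mathlib.Tactic.Linarith.sub_neg_of_lt hf1) (Mathlib.Tactic.Linarith.sub_neg_of_lt hf1), mul_pos_of_neg_of_neg (Mathlib.Tactic.Linarith.sub_neg_of_lt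 hf1) (Mathlib.Tactic.Linarith.sub_neg_of_lt ha1), mul_pos_of_neg_of_neg (Mathlib.Tactic.Linarith.sub_neg_of_lt hf1) (Mathlib.Tactic.Linarith.sub_neg_of_lt hb1), mul_pos_of_neg_of_neg (Mathlib.Tactic.Linarith.sub_neg_of_lt hf1) (Mathlib.Tactic.Linarith.sub_neg_of_lt hb2), mul_pos_of_neg_of_neg (Mathlib.Tactic.Linarith.sub_neg_of_lt hf1) (Mathlib.Tactic.Linarith.sub_neg_of_lt hs1'), mul_pos_of_neg_of_neg (Mathlib.Tactic.Linarith.sub_neg_of_lt hs1') (Mathlib.Tactic.Linarith.sub_neg_of_lt hs2')]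
  have hfz : f ((s : ℝ) / c) = s := by
    simp only [f]
    have : 1 + ((s : ℝ) / c) ^ 2 = (1 / c) ^ 2 := by
      field_simp; linarith only [hcsq]
    rw [this, Real.sqrt_sq (by positivity)]
    field_simp
  refine ⟨s / c, ⟨s, c, e, hg, by exact_mod_cast hc0, he, rfl⟩, ?_, ?_⟩
  · by_contra hle
    push Not at hle
    rcases hle.lt_or_eq with h | h
    · have := hf _ _ (by positivity) h
      linarith only [hs1', hfz, this]
    · rw [h] at hfz; linarith only [hs1', hfz]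
  · by_contra hle
    push Not at hle
    rcases hle.lt_or_eq with h | h
    · have := hf _ _ (by linarith only [h0, hab]) h
      linarith only [hs2', hfz, this]
    · rw [← h] at hfz; linarith only [hs2', hfz]

end Pool.Agent.Work.MP_677830_co
end

-- merged part: Pool.Agent.Work.MP_677830_co.Basic
section
namespace Pool.Agent.Work.MP_677830_co

abbrev Pt := EuclideanSpace ℝ (Fin 2)

lemma orient_cyc (a b c : Pt) : orient b c a = orient a b c := by unfold orient; ring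
lemma orient_swap (a b c : Pt) : orient b a c = - orient a b c := by unfold orient; ring
lemma orient_swap' (a b c : Pt) : orient a c b = - orient a b c := by unfold orient; ring
lemma orient_self1 (a c : Pt) : orient a a c = 0 := by unfold orient; ring
lemma orient_self2 (a b : Pt) : orient a b a = 0 := by unfold orient; ring
lemma orient_self3 (a b : Pt) : orient a b b = 0 := by unfold orient; ring

lemma pt_ext {a b : Pt} (h0 : a 0 = b 0) (h1 : a 1 = b 1) : a = b := by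
  ext i; fin_cases i
  · exact h0
  · exact h1

lemma orient_ne_zero {S : Finset Pt} (h : GeneralPosition S) {a b c : Pt} (ha : a ∈ S)
    (hb : b ∈ S) (hc : c ∈ S) (hab : a ≠ b) (hac : a ≠ c) (hbc : b ≠ c) : orient a b c ≠ 0 := by
  intro h0
  apply h a ha b hb c hc hab hac hbc
  rw [collinear_iff_of_mem (p₀ := a) (by simp)]
  refine ⟨b - a, ?_⟩
  intro x hx
  simp only [Set.mem_insert_iff, Set.mem_singleton_iff] at hx
  rcases hx with rfl | rfl | rfl
  · exact ⟨0, by simp⟩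
  · exact ⟨1, by simp⟩
  · unfold orient at h0
    by_cases h1 : b 0 - a 0 = 0
    · have h2 : b 1 - a 1 ≠ 0 := by
        intro h2; exact hab (pt_ext (by linarith only [h1]) (by linarith))
      refine ⟨(x 1 - a 1) / (b 1 - a 1), pt_ext ?_ ?_⟩
      · simp only [vadd_eq_add, PiLp.add_apply, PiLp.smul_apply, PiLp.sub_apply, smul_eq_mul]
        rw [h1] at h0 ⊢
        have : (b 1 - a 1) * (x 0 - a 0) = 0 := by linarith only [h0]
        rcases mul_eq_zero.mp this with h | h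
        · exact absurd h h2
        · linarith only [h]
      · simp only [vadd_eq_add, PiLp.add_apply, PiLp.smul_apply, PiLp.sub_apply, smul_eq_mul]
        field_simp; ring
    · refine ⟨(x 0 - a 0) / (b 0 - a 0), pt_ext ?_ ?_⟩
      · simp only [vadd_eq_add, PiLp.add_apply, PiLp.smul_apply, PiLp.sub_apply, smul_eq_mul]
        field_simp; ring
      · simp only [vadd_eq_add, PiLp.add_apply, PiLp.smul_apply, PiLp.sub_apply, smul_eq_mul]
        field_simp; linarith only [h0]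

/-- a point strictly inside a triangle lies in any convex hull containing the vertices -/
lemma mem_hull_of_tri {T : Set Pt} {x u v w : Pt} (hu : u ∈ T) (hv : v ∈ T) (hw : w ∈ T)
    (h1 : 0 < orient u v x) (h2 : 0 < orient v w x) (h3 : 0 < orient w u x) :
    x ∈ convexHull ℝ T := by
  have hc := convex_convexHull ℝ T
  have hu' := subset_convexHull ℝ T hu
  have hv' := subset_convexHull ℝ T hv
  have hw' := subset_convexHull ℝ T hw
  set A := orient v w x with hA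
  set B := orient w u x with hB
  set C := orient u v x with hC
  have hAB : 0 < A + B := by linarith
  have hABC : 0 < A + B + C := by linarith
  have m1 := hc hu' hv' (a := A / (A + B)) (b := B / (A + B)) (by positivity) (by positivity)
    (by field_simp)
  have m2 := hc m1 hw' (a := (A + B) / (A + B + C)) (b := C / (A + B + C)) (by positivity)
    (by positivity) (by field_simp)
  have : x = ((A + B) / (A + B + C)) • ((A / (A + B)) • u + (B / (A + B)) • v)
      + (C / (A + B + C)) • w := by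
    apply pt_ext
    · simp only [PiLp.add_apply, PiLp.smul_apply, smul_eq_mul]
      field_simp
      rw [hA, hB, hC]; unfold orient; ring
    · simp only [PiLp.add_apply, PiLp.smul_apply, smul_eq_mul]
      field_simp
      rw [hA, hB, hC]; unfold orient; ring
  rw [this]; exact m2

/-- same orientation sign -/
def Same (φ : Pt → Pt) (a b c : Pt) : Prop :=
  SignType.sign (orient (φ a) (φ b) (φ c)) = SignType.sign (orient a b c)

lemma Same.cyc {φ : Pt → Pt} {a b c : Pt} (h : Same φ a b c) : Same φ b c a := by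
  unfold Same at *; rw [orient_cyc, orient_cyc a b c]; exact h

lemma Same.swap {φ : Pt → Pt} {a b c : Pt} (h : Same φ a b c) : Same φ b a c := by
  unfold Same at *; rw [orient_swap, orient_swap a b c, Left.sign_neg, Left.sign_neg, h]

lemma same_pos {φ : Pt → Pt} {a b c : Pt} (h1 : 0 < orient (φ a) (φ b) (φ c))
    (h2 : 0 < orient a b c) : Same φ a b c := by
  unfold Same; rw [sign_pos h1, sign_pos h2]

lemma same_neg {φ : Pt → Pt} {a b c : Pt} (h1 : orient (φ a) (φ b) (φ c) < 0)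
    (h2 : orient a b c < 0) : Same φ a b c := by
  unfold Same; rw [sign_neg h1, sign_neg h2]

lemma same_self (φ : Pt → Pt) (a c : Pt) : Same φ a a c := by
  unfold Same; rw [orient_self1, orient_self1]

lemma same_of_sorted {φ : Pt → Pt} {C : Finset Pt} (f : Pt → ℝ)
    (hf : ∀ a ∈ C, ∀ b ∈ C, a ≠ b → f a ≠ f b)
    (h : ∀ a ∈ C, ∀ b ∈ C, ∀ c ∈ C, f b < f a → f c < f b → Same φ a b c) :
    ∀ a ∈ C, ∀ b ∈ C, ∀ c ∈ C, Same φ a b c := by
  intro a ha b hb c hc
  by_cases hab : a = b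
  · subst hab; exact same_self φ a c
  by_cases hbc : b = c
  · subst hbc; exact (same_self φ b a).cyc.cyc
  by_cases hac : a = c
  · subst hac; exact (same_self φ a b).cyc
  rcases lt_or_gt_of_ne (hf a ha b hb hab) with h1 | h1 <;>
  rcases lt_or_gt_of_ne (hf b hb c hc hbc) with h2 | h2 <;>
  rcases lt_or_gt_of_ne (hf a ha c hc hac) with h3 | h3
  · exact (h c hc b hb a ha h2 h1).swap.cyc.cyc
  · exact (h c hc b hb a ha h2 h1).swap.cyc.cyc
  · exact (h b hb c hc a ha h2 h3).cyc.cyc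
  · exact (h b hb a ha c hc h1 h3).swap
  · exact (h c hc a ha b hb h3 h1).cyc
  · exact (h a ha c hc b hb h3 h2).swap.cyc
  · exact h a ha b hb c hc h1 h2
  · exact h a ha b hb c hc h1 h2

/-- from rational to integer distances -/
lemma realize_of_rat {S : Finset Pt} (φ : Pt → Pt) (hinj : Set.InjOn φ S)
    (hs : ∀ a ∈ S, ∀ b ∈ S, ∀ c ∈ S, Same φ a b c)
    (hr : ∀ a ∈ S, ∀ b ∈ S, ∃ r : ℚ, dist (φ a) (φ b) = r) : IntegerRealizable S := by
  classical
  choose! r hr using hr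
  set N : ℕ := ∏ x ∈ S ×ˢ S, (r x.1 x.2).den with hN
  have hN0 : 0 < N := Finset.prod_pos (fun x _ => (r x.1 x.2).den_pos)
  have hN0' : (0 : ℝ) < N := by exact_mod_cast hN0
  refine ⟨fun a => (N : ℝ) • φ a, ?_, ?_, ?_⟩
  · intro a ha b hb hab
    exact hinj ha hb (smul_right_injective _ hN0'.ne' hab)
  · intro a ha b hb c hc
    have : orient ((N : ℝ) • φ a) ((N : ℝ) • φ b) ((N : ℝ) • φ c)
        = (N : ℝ) ^ 2 * orient (φ a) (φ b) (φ c) := by
      unfold orient; simp only [PiLp.smul_apply, smul_eq_mul]; ring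
    rw [this, sign_mul, sign_pos (by positivity), one_mul]
    exact hs a ha b hb c hc
  · intro a ha b hb
    have hd : (r a b).den ∣ N :=
      Finset.dvd_prod_of_mem (fun x : Pt × Pt => (r x.1 x.2).den)
        (Finset.mem_product.mpr ⟨ha, hb⟩ : (a, b) ∈ S ×ˢ S)
    obtain ⟨k, hk⟩ := hd
    refine ⟨k * (r a b).num, ?_⟩
    rw [dist_smul₀, hr a ha b hb, Real.norm_eq_abs, abs_of_pos hN0', hk]
    have : ((r a b : ℚ) : ℝ) = (r a b).num / (r a b).den := by
      exact_mod_cast (Rat.num_div_den (r a b)).symm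
    have hden : ((r a b).den : ℝ) ≠ 0 := by exact_mod_cast (r a b).den_nz
    rw [this]; push_cast; field_simp

/-- the point of the unit circle with parameter `z` -/
noncomputable def circ (z : ℝ) : Pt := !₂[(z ^ 2 - 1) / (z ^ 2 + 1), 2 * z / (z ^ 2 + 1)]

/-- a point of the horizontal axis -/
noncomputable def ax (ρ : ℝ) : Pt := !₂[ρ, 0]

lemma orient_circ (x y z : ℝ) : orient (circ x) (circ y) (circ z)
    = 4 * ((x - y) * (y - z) * (x - z)) / ((x ^ 2 + 1) * (y ^ 2 + 1) * (z ^ 2 + 1)) := by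
  unfold orient circ
  simp only [PiLp.toLp_apply, Matrix.cons_val_zero, Matrix.cons_val_one]
  field_simp; ring

lemma orient_ax (ρ x y : ℝ) : orient (ax ρ) (circ x) (circ y)
    = 2 * ((x - y) * ((1 + ρ) + (1 - ρ) * (x * y))) / ((x ^ 2 + 1) * (y ^ 2 + 1)) := by
  unfold orient circ ax
  simp only [PiLp.toLp_apply, Matrix.cons_val_zero, Matrix.cons_val_one]
  field_simp; ring

lemma orient_ax_ax (ρ x : ℝ) : orient (ax 0) (ax ρ) (circ x) = 2 * (ρ * x) / (x ^ 2 + 1) := by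
  unfold orient circ ax
  simp only [PiLp.toLp_apply, Matrix.cons_val_zero, Matrix.cons_val_one]
  field_simp; ring

lemma orient_circ_pos {x y z : ℝ} (h1 : y < x) (h2 : z < y) :
    0 < orient (circ x) (circ y) (circ z) := by
  rw [orient_circ]
  have : 0 < x - y := by linarith
  have : 0 < y - z := by linarith
  have : 0 < x - z := by linarith
  positivity

lemma orient_ax_pos {ρ x y : ℝ} (h : 0 < (x - y) * ((1 + ρ) + (1 - ρ) * (x * y))) :
    0 < orient (ax ρ) (circ x) (circ y) := by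
  rw [orient_ax]; positivity

lemma circ_inj {x y : ℝ} (h : circ x = circ y) : x = y := by
  by_contra hne
  have h1 := orient_ax 0 x y
  have h2 := orient_ax 1 x y
  rw [h, orient_self3] at h2
  have : 0 < (x ^ 2 + 1) * (y ^ 2 + 1) := by positivity
  have h3 := h2.symm
  rw [div_eq_zero_iff] at h3
  rcases h3 with h3 | h3
  · apply hne; linarith only [h3]
  · linarith only [this, h3]

lemma circ_ne_ax {x ρ : ℝ} (hx : x ≠ 0) : circ x ≠ ax ρ := by
  intro h
  have := congrArg (fun v : Pt => v 1) h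
  simp only [circ, ax, PiLp.toLp_apply, Matrix.cons_val_one, Matrix.cons_val_zero] at this
  rw [div_eq_zero_iff] at this
  rcases this with h | h
  · apply hx; linarith only [h]
  · linarith only [h, sq_nonneg x, sq_nonneg x]

lemma dist_eq_of_sq {a b : Pt} {r : ℝ} (h : (a 0 - b 0) ^ 2 + (a 1 - b 1) ^ 2 = r ^ 2) :
    dist a b = |r| := by
  rw [EuclideanSpace.dist_eq, Fin.sum_univ_two, Real.dist_eq, Real.dist_eq, sq_abs, sq_abs, h,
    Real.sqrt_sq_eq_abs]

lemma Adm.coords {z : ℝ} (h : Adm z) : ∃ s c e : ℚ, (c : ℝ) ^ 2 = 1 - (s : ℝ) ^ 2 ∧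
    (e : ℝ) ^ 2 = 1 - 24 / 49 * (s : ℝ) ^ 2 ∧ circ z 0 = (s : ℝ) ^ 2 - (c : ℝ) ^ 2 ∧
    circ z 1 = 2 * s * c := by
  obtain ⟨s, c, e, hg, hc, -, rfl⟩ := h
  have h1 : (c : ℝ) ^ 2 = 1 - (s : ℝ) ^ 2 := by exact_mod_cast hg.1
  have h2 : (e : ℝ) ^ 2 = 1 - 24 / 49 * (s : ℝ) ^ 2 := by
    have := congrArg (fun q : ℚ => (q : ℝ)) hg.2
    push_cast at this; exact this
  have hc' : (c : ℝ) ≠ 0 := by exact_mod_cast hc.ne'
  have h3 : (s : ℝ) ^ 2 + (c : ℝ) ^ 2 = 1 := by linarith only [h1]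
  refine ⟨s, c, e, h1, h2, ?_, ?_⟩
  · simp only [circ, PiLp.toLp_apply, Matrix.cons_val_zero]
    field_simp; rw [h3]; ring
  · simp only [circ, PiLp.toLp_apply, Matrix.cons_val_one, Matrix.cons_val_zero]
    field_simp; rw [h3]; ring

lemma rat_circ_circ {x y : ℝ} (hx : Adm x) (hy : Adm y) :
    ∃ r : ℚ, dist (circ x) (circ y) = r := by
  obtain ⟨s, c, e, a1, -, a3, a4⟩ := hx.coords
  obtain ⟨s', c', e', b1, -, b3, b4⟩ := hy.coords
  refine ⟨|2 * (s * c' - s' * c)|, ?_⟩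
  rw [dist_eq_of_sq (r := 2 * (s * c' - s' * c))]
  · push_cast; rfl
  · rw [a3, a4, b3, b4]
    linear_combination ((c : ℝ) ^ 2 + s ^ 2 + 1 - 2 * ((c' : ℝ) ^ 2 + s' ^ 2)) * a1
      + ((c' : ℝ) ^ 2 + s' ^ 2 - 1) * b1

lemma rat_circ_ax0 {x : ℝ} (hx : Adm x) : ∃ r : ℚ, dist (circ x) (ax 0) = r := by
  obtain ⟨s, c, e, a1, -, a3, a4⟩ := hx.coords
  refine ⟨1, ?_⟩
  rw [dist_eq_of_sq (r := 1)]
  · simp
  · rw [a3, a4]
    simp only [ax, PiLp.toLp_apply, Matrix.cons_val_one, Matrix.cons_val_zero]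
    linear_combination ((c : ℝ) ^ 2 + s ^ 2 + 1) * a1

lemma rat_circ_ax6 {x : ℝ} (hx : Adm x) : ∃ r : ℚ, dist (circ x) (ax 6) = r := by
  obtain ⟨s, c, e, a1, a2, a3, a4⟩ := hx.coords
  refine ⟨|7 * e|, ?_⟩
  rw [dist_eq_of_sq (r := 7 * e)]
  · push_cast; rfl
  · rw [a3, a4]
    simp only [ax, PiLp.toLp_apply, Matrix.cons_val_one, Matrix.cons_val_zero]
    linear_combination ((c : ℝ) ^ 2 + s ^ 2 + 13) * a1 - 49 * a2

lemma rat_circ_axd {x : ℝ} (hx : Adm x) : ∃ r : ℚ, dist (circ x) (ax (1 / 6)) = r := by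
  obtain ⟨s, c, e, a1, a2, a3, a4⟩ := hx.coords
  refine ⟨|7 / 6 * e|, ?_⟩
  rw [dist_eq_of_sq (r := 7 / 6 * e)]
  · push_cast; rfl
  · rw [a3, a4]
    simp only [ax, PiLp.toLp_apply, Matrix.cons_val_one, Matrix.cons_val_zero]
    linear_combination ((c : ℝ) ^ 2 + s ^ 2 + 4 / 3) * a1 - 49 / 36 * a2

lemma rat_ax_ax : ∃ r : ℚ, dist (ax 0) (ax (1 / 6)) = r := by
  refine ⟨|1 / 6|, ?_⟩
  rw [dist_eq_of_sq (r := 1 / 6)]
  · push_cast; rfl
  · simp only [ax, PiLp.toLp_apply, Matrix.cons_val_one, Matrix.cons_val_zero]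
    ring

end Pool.Agent.Work.MP_677830_co
end
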