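import Pool.Agent.Work.MP_677830_co.Basic

-- merged part: Pool.Agent.Work.MP_677830_co.Two
section
namespace Pool.Agent.Work.MP_677830_co

lemma between (A B : Finset ℝ) (h0 : (0 : ℝ) ∈ A) (h : ∀ a ∈ A, ∀ b ∈ B, a < b) :
    ∃ α β : ℝ, 0 ≤ α ∧ α < β ∧ (∀ a ∈ A, a ≤ α) ∧ ∀ b ∈ B, β ≤ b := by
  have hA : A.Nonempty := ⟨0, h0⟩
  rcases B.eq_empty_or_nonempty with rfl | hB
  · exact ⟨A.max' hA, A.max' hA + 1, A.le_max' 0 h0, by linarith, fun a ha => A.le_max' a ha,
      by simp⟩
  · exact ⟨A.max' hA, B.min' hB, A.le_max' 0 h0, h _ (A.max'_mem hA) _ (B.min'_mem hB),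
      fun a ha => A.le_max' a ha, fun b hb => B.min'_le b hb⟩

lemma assign {ι : Type} (C : Finset ι) (U : ι → Prop) (s t : ι → ℝ) (D : ι → ℝ → Prop)
    (hD : ∀ i α β, 0 ≤ α → α < β → ∃ w, D i w ∧ α < w ∧ w < β) (Λ : ℝ) (hΛ : 1 < Λ)
    (hinj : ∀ a ∈ C, ∀ b ∈ C, a ≠ b → s a ≠ s b)
    (hU : ∀ a ∈ C, U a → t a < s a) (hL : ∀ b ∈ C, ¬ U b → s b < t b)
    (hmL : ∀ b ∈ C, ∀ b' ∈ C, ¬ U b → ¬ U b' → t b' < t b → s b' < s b)
    (hmU : ∀ a ∈ C, ∀ a' ∈ C, U a → U a' → s a ≤ s a' → t a ≤ t a') :
    ∃ w : ι → ℝ, (∀ a ∈ C, D a (w a) ∧ 0 < w a) ∧ (∀ a ∈ C, ∀ b ∈ C, s a < s b → w a < w b) ∧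
      (∀ a ∈ C, ∀ b ∈ C, U a → ¬ U b → (t a < t b → w a < Λ * w b) ∧
        (t b < t a → Λ * w b < w a)) := by
  classical
  have key : ∀ T : Finset ι, T ⊆ C → ∃ w : ι → ℝ, (∀ a ∈ T, D a (w a) ∧ 0 < w a) ∧
      (∀ a ∈ T, ∀ b ∈ T, s a < s b → w a < w b) ∧
      (∀ x ∈ T, ∀ b ∈ T, ¬ U b → ∀ a' ∈ C, U a' → s x ≤ s a' → t a' < t b → w x < Λ * w b) ∧
      (∀ a ∈ T, ∀ b ∈ T, U a → ¬ U b → t b < t a → Λ * w b < w a) := by
    intro T
    induction T using Finset.induction_on_max_value s with
    | empty => intro _; exact ⟨fun _ => 0, by simp, by simp, by simp, by simp⟩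
    | insert x T hx hmax ih =>
      intro hsub
      have hxC : x ∈ C := hsub (Finset.mem_insert_self _ _)
      have hTC : T ⊆ C := fun y hy => hsub (Finset.mem_insert_of_mem hy)
      obtain ⟨w, w1, w2, w3, w4⟩ := ih hTC
      have hlt : ∀ y ∈ T, s y < s x := fun y hy =>
        lt_of_le_of_ne (hmax y hy) (hinj y (hTC hy) x hxC (fun h => hx (h ▸ hy)))
      set A : Finset ℝ := insert 0 (T.image w ∪
        (T.filter (fun b => ¬ U b ∧ U x ∧ t b < t x)).image (fun b => Λ * w b)) with hA
      set B : Finset ℝ := (T.filter (fun b => ¬ U b ∧ ∃ a' ∈ C, U a' ∧ s x ≤ s a' ∧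
        t a' < t b)).image (fun b => Λ * w b) with hB
      obtain ⟨α, β, h0, hab, hα, hβ⟩ := between A B (by simp [hA]) (by
        intro a ha b hb
        simp only [hB, Finset.mem_image, Finset.mem_filter] at hb
        obtain ⟨b0, ⟨hb0, hb1, a', ha', hUa', hs', ht'⟩, rfl⟩ := hb
        simp only [hA, Finset.mem_insert, Finset.mem_union, Finset.mem_image,
          Finset.mem_filter] at ha
        rcases ha with rfl | ⟨y, hy, rfl⟩ | ⟨y, ⟨hy, hy1, hy2, hy3⟩, rfl⟩
        · have := (w1 b0 hb0).2; positivity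
        · exact w3 y hy b0 hb0 hb1 a' ha' hUa' ((hlt y hy).le.trans hs') ht'
        · have h1 := hmU x hxC a' ha' hy2 hUa' hs'
          have h2 := hmL b0 (hTC hb0) y (hTC hy) hb1 hy1 (by linarith)
          have h3 := w2 y hy b0 hb0 h2
          exact mul_lt_mul_of_pos_left h3 (by linarith))
      obtain ⟨v, hv, hv1, hv2⟩ := hD x α β h0 hab
      have hne : ∀ y ∈ T, y ≠ x := fun y hy h => hx (h ▸ hy)
      have hwv : ∀ y ∈ T, w y < v := by
        intro y hy
        refine lt_of_le_of_lt (hα _ ?_) hv1
        simp only [hA, Finset.mem_insert, Finset.mem_union, Finset.mem_image]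
        exact Or.inr (Or.inl ⟨y, hy, rfl⟩)
      have hv0 : 0 < v := lt_of_le_of_lt h0 hv1
      have hup : ∀ y ∈ T, Function.update w x v y = w y := fun y hy =>
        Function.update_of_ne (hne y hy) _ _
      have hux : Function.update w x v x = v := Function.update_self _ _ _
      refine ⟨Function.update w x v, ?_, ?_, ?_, ?_⟩
      · intro a ha
        rcases Finset.mem_insert.mp ha with rfl | ha
        · rw [hux]; exact ⟨hv, hv0⟩
        · rw [hup a ha]; exact w1 a ha
      · intro a ha0 b hb0 hab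
        rcases Finset.mem_insert.mp ha0 with rfl | ha <;>
          rcases Finset.mem_insert.mp hb0 with rfl | hb
        · exact absurd hab (lt_irrefl _)
        · exact absurd hab (not_lt.mpr (hlt b hb).le)
        · rw [hux, hup a ha]; exact hwv a ha
        · rw [hup a ha, hup b hb]; exact w2 a ha b hb hab
      · intro y hy0 b hb0 hUb a' ha' hUa' hs' ht'
        rcases Finset.mem_insert.mp hy0 with rfl | hy <;>
          rcases Finset.mem_insert.mp hb0 with rfl | hb
        · rw [hux]; linarith only [hΛ, h0, hv1, mul_nonneg_of_nonpos_of_nonpos (le_of_lt (Mathlib.Tactic.Linarith.sub_neg_of_lt hΛ)) (Mathlib.Tactic.Linarith.sub_nonpos_of_le h0), mul_pos_of_neg_of_neg (Mathlib.Tactic.Linarith.sub_neg_of_lt hΛ) (Mathlib.Tactic.Linarith.sub_neg_of_lt hv1)]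
        · rw [hux, hup b hb]
          refine lt_of_lt_of_le hv2 (hβ _ ?_)
          simp only [hB, Finset.mem_image, Finset.mem_filter]
          exact ⟨b, ⟨hb, hUb, a', ha', hUa', hs', ht'⟩, rfl⟩
        · rw [hux, hup y hy]; have := hwv y hy; linarith only [this, hΛ, h0, hv1, mul_nonneg_of_nonpos_of_nonpos (le_of_lt (Mathlib.Tactic.Linarith.sub_neg_of_lt hΛ)) (Mathlib.Tactic.Linarith.sub_nonpos_of_le h0), mul_pos_of_neg_of_neg (Mathlib.Tactic.Linarith.sub_neg_of_lt hΛ) (Mathlib.Tactic.Linarith.sub_neg_of_lt hv1)]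
        · rw [hup y hy, hup b hb]; exact w3 y hy b hb hUb a' ha' hUa' hs' ht'
      · intro a ha0 b hb0 hUa hUb ht
        rcases Finset.mem_insert.mp ha0 with rfl | ha <;>
          rcases Finset.mem_insert.mp hb0 with rfl | hb
        · exact absurd hUa hUb
        · rw [hux, hup b hb]
          refine lt_of_le_of_lt (hα _ ?_) hv1
          simp only [hA, Finset.mem_insert, Finset.mem_union, Finset.mem_image,
            Finset.mem_filter]
          exact Or.inr (Or.inr ⟨b, ⟨hb, hUb, hUa, ht⟩, rfl⟩)
        · have h1 := hU a (hTC ha) hUa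
          have h2 := hL b hxC hUb
          have h3 := hlt a ha
          linarith
        · rw [hup a ha, hup b hb]; exact w4 a ha b hb hUa hUb ht
  obtain ⟨w, w1, w2, w3, w4⟩ := key C le_rfl
  exact ⟨w, w1, w2, fun a ha b hb hUa hUb =>
    ⟨fun h => w3 a ha b hb hUb a ha hUa le_rfl h, w4 a ha b hb hUa hUb⟩⟩

/-- coordinate along the segment `p q` -/
def xc (p q a : Pt) : ℝ := (a 0 - p 0) * (q 0 - p 0) + (a 1 - p 1) * (q 1 - p 1)

/-- cotangent of the angle at `p` -/
noncomputable def sc (p q a : Pt) : ℝ := xc p q a / orient p q a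

/-- cotangent of the angle at `q` -/
noncomputable def tc (p q a : Pt) : ℝ := (xc p q a - xc p q q) / orient p q a

lemma xc_pos {p q : Pt} (h : p ≠ q) : 0 < xc p q q := by
  unfold xc
  by_contra hle
  apply h
  apply pt_ext <;> nlinarith [sq_nonneg (q 0 - p 0), sq_nonneg (q 1 - p 1)]

lemma op_eq {p q a b : Pt} (ha : orient p q a ≠ 0) (hb : orient p q b ≠ 0) :
    xc p q q * orient p a b = orient p q a * orient p q b * (sc p q a - sc p q b) := by
  unfold sc; field_simp; unfold xc orient; ring

lemma oq_eq {p q a b : Pt} (ha : orient p q a ≠ 0) (hb : orient p q b ≠ 0) :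
    xc p q q * orient q a b = orient p q a * orient p q b * (tc p q a - tc p q b) := by
  unfold tc; field_simp; unfold xc orient; ring

lemma pos_of_mul_eq {N o Y d : ℝ} (hN : 0 < N) (h : N * o = Y * d) (h1 : 0 < Y * d) : 0 < o := by
  rw [← h] at h1; exact (pos_iff_pos_of_mul_pos h1).mp hN

theorem two_main (S : Finset Pt) (p q : Pt) (hp : p ∈ S) (hq : q ∈ S) (hpq : p ≠ q)
    (hgp : GeneralPosition S)
    (H : ∀ x ∈ S, x ≠ p → x ≠ q → ∀ u ∈ S, ∀ v ∈ S, ∀ w ∈ S,
      ¬ (0 < orient u v x ∧ 0 < orient v w x ∧ 0 < orient w u x)) :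
    IntegerRealizable S := by
  classical
  set C := (S.erase p).erase q with hC
  have mC : ∀ x, x ∈ C ↔ x ≠ q ∧ x ≠ p ∧ x ∈ S := by intro x; simp [hC]
  have hN := xc_pos hpq
  have hY : ∀ a ∈ C, orient p q a ≠ 0 := by
    intro a ha; obtain ⟨h1, h2, h3⟩ := (mC a).mp ha
    exact orient_ne_zero hgp hp hq h3 hpq h2.symm h1.symm
  have hYn : ∀ a ∈ C, ¬ 0 < orient p q a → orient p q a < 0 := fun a ha h =>
    lt_of_le_of_ne (not_lt.mp h) (hY a ha)
  have hsinj : ∀ a ∈ C, ∀ b ∈ C, a ≠ b → sc p q a ≠ sc p q b := by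
    intro a ha b hb hab h
    have h1 := op_eq (hY a ha) (hY b hb)
    rw [h, sub_self, mul_zero] at h1
    obtain ⟨a1, a2, a3⟩ := (mC a).mp ha
    obtain ⟨b1, b2, b3⟩ := (mC b).mp hb
    exact mul_ne_zero hN.ne' (orient_ne_zero hgp hp a3 b3 a2.symm b2.symm hab) h1
  have htinj : ∀ a ∈ C, ∀ b ∈ C, a ≠ b → tc p q a ≠ tc p q b := by
    intro a ha b hb hab h
    have h1 := oq_eq (hY a ha) (hY b hb)
    rw [h, sub_self, mul_zero] at h1
    obtain ⟨a1, a2, a3⟩ := (mC a).mp ha
    obtain ⟨b1, b2, b3⟩ := (mC b).mp hb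
    exact mul_ne_zero hN.ne' (orient_ne_zero hgp hq a3 b3 a1.symm b1.symm hab) h1
  -- signs of orientations with `p` and `q`
  have opS : ∀ a ∈ C, ∀ b ∈ C, 0 < orient p q a * orient p q b → sc p q b < sc p q a →
      0 < orient p a b := fun a ha b hb h1 h2 =>
    pos_of_mul_eq hN (op_eq (hY a ha) (hY b hb)) (mul_pos h1 (by linarith))
  have opD : ∀ a ∈ C, ∀ b ∈ C, orient p q a * orient p q b < 0 → sc p q a < sc p q b →
      0 < orient p a b := fun a ha b hb h1 h2 =>
    pos_of_mul_eq hN (op_eq (hY a ha) (hY b hb)) (mul_pos_of_neg_of_neg h1 (by linarith))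
  have oqS : ∀ a ∈ C, ∀ b ∈ C, 0 < orient p q a * orient p q b → tc p q b < tc p q a →
      0 < orient q a b := fun a ha b hb h1 h2 =>
    pos_of_mul_eq hN (oq_eq (hY a ha) (hY b hb)) (mul_pos h1 (by linarith))
  have oqD : ∀ a ∈ C, ∀ b ∈ C, orient p q a * orient p q b < 0 → tc p q a < tc p q b →
      0 < orient q a b := fun a ha b hb h1 h2 =>
    pos_of_mul_eq hN (oq_eq (hY a ha) (hY b hb)) (mul_pos_of_neg_of_neg h1 (by linarith))
  have HC : ∀ x ∈ C, ∀ u ∈ S, ∀ v ∈ S, ∀ w ∈ S,
      0 < orient u v x → 0 < orient v w x → 0 < orient w u x → False := by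
    intro x hx u hu v hv w hw h1 h2 h3
    obtain ⟨a1, a2, a3⟩ := (mC x).mp hx
    exact H x a3 a2 a1 u hu v hv w hw ⟨h1, h2, h3⟩
  have hCS : ∀ x ∈ C, x ∈ S := fun x hx => ((mC x).mp hx).2.2
  -- monotonicity on each side
  have mono : ∀ a ∈ C, ∀ b ∈ C, 0 < orient p q a * orient p q b → sc p q b < sc p q a →
      tc p q b < tc p q a := by
    intro a ha b hb hs hlt
    have hab : a ≠ b := by rintro rfl; exact lt_irrefl _ hlt
    rcases lt_or_gt_of_ne (htinj a ha b hb hab) with h | h
    · exfalso
      have h1 := opS a ha b hb hs hlt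
      have h2 := oqS b hb a ha (by rw [mul_comm]; exact hs) h
      by_cases hu : 0 < orient p q a
      · exact HC a ha p hp q hq b (hCS b hb) hu h2 (by rw [← orient_cyc]; exact h1)
      · have hb' : orient p q b < 0 := by
          have := hYn a ha hu
          by_contra hb''
          have := mul_nonpos_of_nonpos_of_nonneg this.le (not_lt.mp hb'')
          linarith
        exact HC b hb q hq p hp a (hCS a ha) (by rw [orient_swap]; linarith) h1
          (by rw [← orient_cyc]; exact h2)
    · exact h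
  have mono' : ∀ a ∈ C, ∀ b ∈ C, 0 < orient p q a * orient p q b → tc p q b < tc p q a →
      sc p q b < sc p q a := by
    intro a ha b hb hs hlt
    have hab : a ≠ b := by rintro rfl; exact lt_irrefl _ hlt
    rcases lt_or_gt_of_ne (hsinj a ha b hb hab) with h | h
    · have := mono b hb a ha (by rw [mul_comm]; exact hs) h
      linarith
    · exact h
  obtain ⟨w, w1, w2, w3⟩ := assign C (fun a => 0 < orient p q a) (sc p q) (tc p q)
    (fun a w => if 0 < orient p q a then Adm w else Adm (-1 / w))
    (by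
      intro i α β h0 hab
      split_ifs with h
      · exact adm_dense h0 hab
      · have hβ : 0 < β := lt_of_le_of_lt h0 hab
        obtain ⟨z, hz, hz1, hz2⟩ := adm_dense (α := 1 / β) (β := 2 / (α + β)) (by positivity)
          (by rw [div_lt_div_iff₀ hβ (by linarith)]; linarith)
        have hz0 : 0 < z := lt_trans (by positivity) hz1
        refine ⟨1 / z, ?_, ?_, ?_⟩
        · have : -1 / (1 / z) = -z := by field_simp
          rw [this]; exact hz.neg
        · rw [lt_div_iff₀ hz0]
          rw [lt_div_iff₀ (by linarith)] at hz2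
          linarith only [hz2, hab, hz0, mul_pos_of_neg_of_neg (Mathlib.Tactic.Linarith.sub_neg_of_lt hab) (Mathlib.Tactic.Linarith.sub_neg_of_lt hz0)]
        · rw [div_lt_iff₀ hz0]
          rw [div_lt_iff₀ hβ] at hz1
          linarith)
    (7 / 5) (by norm_num) hsinj
    (by
      intro a ha hu
      unfold tc sc
      exact div_lt_div_of_pos_right (by linarith) hu)
    (by
      intro b hb hu
      unfold tc sc
      exact (div_lt_div_right_of_neg (hYn b hb hu)).mpr (by linarith))
    (fun b hb b' hb' h1 h2 h =>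
      mono' b hb b' hb' (mul_pos_of_neg_of_neg (hYn b hb h1) (hYn b' hb' h2)) h)
    (by
      intro a ha a' ha' h1 h2 h
      rcases h.lt_or_eq with h | h
      · exact (mono a' ha' a ha (mul_pos h2 h1) h).le
      · by_cases haa : a = a'
        · rw [haa]
        · exact absurd h (hsinj a ha a' ha' haa))
  set z : Pt → ℝ := fun a => if 0 < orient p q a then w a else -1 / w a with hz
  have zU : ∀ a, 0 < orient p q a → z a = w a := fun a h => by simp [hz, h]
  have zL : ∀ a, ¬ 0 < orient p q a → z a = -1 / w a := fun a h => by simp [hz, h]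
  have zAdm : ∀ a ∈ C, Adm (z a) := by
    intro a ha
    have := (w1 a ha).1
    by_cases h : 0 < orient p q a
    · rw [zU a h]; simpa [h] using this
    · rw [zL a h]; simpa [h] using this
  have zpos : ∀ a ∈ C, 0 < orient p q a → 0 < z a := fun a ha h => by
    rw [zU a h]; exact (w1 a ha).2
  have zneg : ∀ a ∈ C, ¬ 0 < orient p q a → z a < 0 := fun a ha h => by
    rw [zL a h]; exact div_neg_of_neg_of_pos (by norm_num) (w1 a ha).2
  have zne : ∀ a ∈ C, z a ≠ 0 := fun a ha => by
    by_cases h : 0 < orient p q a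
    · exact (zpos a ha h).ne'
    · exact (zneg a ha h).ne
  have zmono : ∀ a ∈ C, ∀ b ∈ C, (0 < orient p q a ↔ 0 < orient p q b) →
      sc p q b < sc p q a → z b < z a := by
    intro a ha b hb hiff hlt
    have := w2 b hb a ha hlt
    by_cases h : 0 < orient p q a
    · rw [zU a h, zU b (hiff.mp h)]; exact this
    · rw [zL a h, zL b (fun h' => h (hiff.mpr h'))]
      rw [div_lt_div_iff₀ (w1 b hb).2 (w1 a ha).2]; linarith
  have zmono' : ∀ a ∈ C, ∀ b ∈ C, (0 < orient p q a ↔ 0 < orient p q b) →
      z b < z a → sc p q b < sc p q a := by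
    intro a ha b hb hiff hlt
    have hab : a ≠ b := by rintro rfl; exact lt_irrefl _ hlt
    rcases lt_or_gt_of_ne (hsinj a ha b hb hab) with h | h
    · have := zmono b hb a ha hiff.symm h
      linarith
    · exact h
  have zinj : ∀ a ∈ C, ∀ b ∈ C, a ≠ b → z a ≠ z b := by
    intro a ha b hb hab h
    have hiff : 0 < orient p q a ↔ 0 < orient p q b := by
      constructor
      · intro h1; by_contra h2
        have := zpos a ha h1; have := zneg b hb h2; linarith
      · intro h1; by_contra h2
        have := zpos b hb h1; have := zneg a ha h2; linarith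
    rcases lt_or_gt_of_ne (hsinj a ha b hb hab) with h1 | h1
    · have := zmono b hb a ha hiff.symm h1; linarith
    · have := zmono a ha b hb hiff h1; linarith
  set φ : Pt → Pt := fun a => if a = p then ax 0 else if a = q then ax (1 / 6) else circ (z a)
    with hφ
  have φp : φ p = ax 0 := by simp [hφ]
  have φq : φ q = ax (1 / 6) := by simp [hφ, hpq.symm]
  have φC : ∀ a ∈ C, φ a = circ (z a) := by
    intro a ha; obtain ⟨a1, a2, -⟩ := (mC a).mp ha; simp [hφ, a1, a2]
  have cases : ∀ a ∈ S, a = p ∨ a = q ∨ a ∈ C := by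
    intro a ha
    by_cases h1 : a = p
    · exact Or.inl h1
    by_cases h2 : a = q
    · exact Or.inr (Or.inl h2)
    exact Or.inr (Or.inr ((mC a).mpr ⟨h2, h1, ha⟩))
  have axne : ax 0 ≠ ax (1 / 6) := by
    intro h
    have := congrArg (fun v : Pt => v 0) h
    simp [ax] at this
  -- triples inside C
  have sCCC : ∀ a ∈ C, ∀ b ∈ C, ∀ c ∈ C, Same φ a b c := by
    apply same_of_sorted z zinj
    intro a ha b hb c hc h1 h2
    apply same_pos
    · rw [φC a ha, φC b hb, φC c hc]; exact orient_circ_pos h1 h2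
    have hab : a ≠ b := by rintro rfl; exact lt_irrefl _ h1
    have hbc : b ≠ c := by rintro rfl; exact lt_irrefl _ h2
    have hac : a ≠ c := by rintro rfl; linarith only [h1, h2]
    have hne := orient_ne_zero hgp (hCS a ha) (hCS b hb) (hCS c hc) hab hac hbc
    by_contra hle
    have hneg : orient a b c < 0 := lt_of_le_of_ne (not_lt.mp hle) hne
    have t1 : 0 < orient p a b → 0 < orient p b c → False := fun x y =>
      HC b hb p hp a (hCS a ha) c (hCS c hc) x (by rw [orient_swap']; linarith)
        (by rw [← orient_cyc]; exact y)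
    have t2 : 0 < orient p a b → 0 < orient p c a → False := fun x y =>
      HC a ha p hp c (hCS c hc) b (hCS b hb) y
        (by rw [orient_swap, orient_cyc]; linarith) (by rw [← orient_cyc]; exact x)
    have t3 : 0 < orient p b c → 0 < orient p c a → False := fun x y =>
      HC c hc p hp b (hCS b hb) a (hCS a ha) x (by rw [orient_swap]; linarith)
        (by rw [← orient_cyc]; exact y)
    by_cases ua : 0 < orient p q a <;> by_cases ub : 0 < orient p q b <;>
      by_cases uc : 0 < orient p q c
    · exact t1 (opS a ha b hb (mul_pos ua ub) (zmono' a ha b hb (by (clear * - t1 t2 t3 ua ub; tauto)) h1))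
        (opS b hb c hc (mul_pos ub uc) (zmono' b hb c hc (by (clear * - t1 t2 t3 ub uc; tauto)) h2))
    · have s1 := zmono' a ha b hb (by (clear * - t1 t2 t3 ua ub; tauto)) h1
      have x := opS a ha b hb (mul_pos ua ub) s1
      by_cases h : sc p q b < sc p q c
      · exact t1 x (opD b hb c hc (mul_neg_of_pos_of_neg ub (hYn c hc uc)) h)
      · exact t2 x (opD c hc a ha (mul_neg_of_neg_of_pos (hYn c hc uc) ua) (by linarith only [s1, h]))
    · have := zneg b hb ub; have := zpos c hc uc; linarith
    · have s1 := zmono' b hb c hc (by (clear * - t1 t2 t3 ub uc; tauto)) h2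
      have x := opS b hb c hc (mul_pos_of_neg_of_neg (hYn b hb ub) (hYn c hc uc)) s1
      by_cases h : sc p q a < sc p q b
      · exact t1 (opD a ha b hb (mul_neg_of_pos_of_neg ua (hYn b hb ub)) h) x
      · exact t3 x (opD c hc a ha (mul_neg_of_neg_of_pos (hYn c hc uc) ua) (by linarith only [s1, h]))
    · have := zneg a ha ua; have := zpos b hb ub; linarith
    · have := zneg a ha ua; have := zpos b hb ub; linarith
    · have := zneg b hb ub; have := zpos c hc uc; linarith
    · exact t1 (opS a ha b hb (mul_pos_of_neg_of_neg (hYn a ha ua) (hYn b hb ub))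
        (zmono' a ha b hb (by (clear * - t1 t2 t3 ua ub; tauto)) h1))
        (opS b hb c hc (mul_pos_of_neg_of_neg (hYn b hb ub) (hYn c hc uc))
        (zmono' b hb c hc (by (clear * - t1 t2 t3 ub uc; tauto)) h2))
  -- triples with one of p, q
  have red : ∀ r : Pt, (∀ a ∈ C, ∀ b ∈ C, z b < z a → Same φ r a b) →
      ∀ a ∈ C, ∀ b ∈ C, Same φ r a b := by
    intro r h a ha b hb
    by_cases hab : a = b
    · subst hab; exact (same_self φ a r).cyc.cyc
    rcases lt_or_gt_of_ne (zinj a ha b hb hab) with h1 | h1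
    · exact (h b hb a ha h1).swap.cyc
    · exact h a ha b hb h1
  have same_sign : ∀ a ∈ C, ∀ b ∈ C, (0 < orient p q a ↔ 0 < orient p q b) →
      0 < orient p q a * orient p q b ∧ 0 < z a * z b := by
    intro a ha b hb hiff
    by_cases h : 0 < orient p q a
    · exact ⟨mul_pos h (hiff.mp h), mul_pos (zpos a ha h) (zpos b hb (hiff.mp h))⟩
    · have h' : ¬ 0 < orient p q b := fun h' => h (hiff.mpr h')
      exact ⟨mul_pos_of_neg_of_neg (hYn a ha h) (hYn b hb h'),
        mul_pos_of_neg_of_neg (zneg a ha h) (zneg b hb h')⟩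
  have diff_sign : ∀ a ∈ C, ∀ b ∈ C, ¬ (0 < orient p q a ↔ 0 < orient p q b) → z b < z a →
      0 < orient p q a ∧ ¬ 0 < orient p q b := by
    intro a ha b hb hiff hlt
    by_cases h : 0 < orient p q a
    · exact ⟨h, fun h' => hiff ⟨fun _ => h', fun _ => h⟩⟩
    · exfalso
      have h' : 0 < orient p q b := by by_contra h'; exact hiff ⟨fun x => absurd x h, fun x => absurd x h'⟩
      have := zneg a ha h; have := zpos b hb h'; linarith
  have sP : ∀ a ∈ C, ∀ b ∈ C, Same φ p a b := by
    apply red
    intro a ha b hb hlt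
    have hab : a ≠ b := by rintro rfl; exact lt_irrefl _ hlt
    by_cases hiff : 0 < orient p q a ↔ 0 < orient p q b
    · obtain ⟨h1, h2⟩ := same_sign a ha b hb hiff
      apply same_pos
      · rw [φp, φC a ha, φC b hb]; exact orient_ax_pos (mul_pos (by linarith only [hlt]) (by linarith))
      · exact opS a ha b hb h1 (zmono' a ha b hb hiff hlt)
    · obtain ⟨ua, ub⟩ := diff_sign a ha b hb hiff hlt
      have hwa := (w1 a ha).2
      have hwb := (w1 b hb).2
      have hprod : z a * z b = - (w a / w b) := by rw [zU a ua, zL b ub]; ring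
      rcases lt_or_gt_of_ne (hsinj a ha b hb hab) with h | h
      · apply same_pos
        · rw [φp, φC a ha, φC b hb]
          apply orient_ax_pos (mul_pos (by linarith only [hlt]) _)
          have := (div_lt_one hwb).mpr (w2 a ha b hb h)
          rw [hprod]; linarith only [this]
        · exact opD a ha b hb (mul_neg_of_pos_of_neg ua (hYn b hb ub)) h
      · refine (same_pos (a := p) (b := b) (c := a) ?_ ?_).swap.cyc
        · rw [φp, φC a ha, φC b hb]
          apply orient_ax_pos (mul_pos_of_neg_of_neg (by linarith only [hlt]) _)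
          have := (one_lt_div hwb).mpr (w2 b hb a ha h)
          rw [mul_comm (z b), hprod]; linarith only [this]
        · exact opD b hb a ha (mul_neg_of_neg_of_pos (hYn b hb ub) ua) h
  have sQ : ∀ a ∈ C, ∀ b ∈ C, Same φ q a b := by
    apply red
    intro a ha b hb hlt
    have hab : a ≠ b := by rintro rfl; exact lt_irrefl _ hlt
    by_cases hiff : 0 < orient p q a ↔ 0 < orient p q b
    · obtain ⟨h1, h2⟩ := same_sign a ha b hb hiff
      apply same_pos
      · rw [φq, φC a ha, φC b hb]; exact orient_ax_pos (mul_pos (by linarith only [hlt]) (by linarith only [h2]))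
      · exact oqS a ha b hb h1 (mono a ha b hb h1 (zmono' a ha b hb hiff hlt))
    · obtain ⟨ua, ub⟩ := diff_sign a ha b hb hiff hlt
      have hwa := (w1 a ha).2
      have hwb := (w1 b hb).2
      have hprod : z a * z b = - (w a / w b) := by rw [zU a ua, zL b ub]; ring
      rcases lt_or_gt_of_ne (htinj a ha b hb hab) with h | h
      · apply same_pos
        · rw [φq, φC a ha, φC b hb]
          apply orient_ax_pos (mul_pos (by linarith only [hlt]) _)
          have := (div_lt_iff₀ hwb).mpr ((w3 a ha b hb ua ub).1 h)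
          rw [hprod]; linarith only [this]
        · exact oqD a ha b hb (mul_neg_of_pos_of_neg ua (hYn b hb ub)) h
      · refine (same_pos (a := q) (b := b) (c := a) ?_ ?_).swap.cyc
        · rw [φq, φC a ha, φC b hb]
          apply orient_ax_pos (mul_pos_of_neg_of_neg (by linarith only [hlt]) _)
          have := (lt_div_iff₀ hwb).mpr ((w3 a ha b hb ua ub).2 h)
          rw [mul_comm (z b), hprod]; linarith only [this]
        · exact oqD b hb a ha (mul_neg_of_neg_of_pos (hYn b hb ub) ua) h
  have sPQ : ∀ a ∈ C, Same φ p q a := by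
    intro a ha
    by_cases h : 0 < orient p q a
    · apply same_pos _ h
      rw [φp, φq, φC a ha, orient_ax_ax]
      have := zpos a ha h; positivity
    · apply same_neg _ (hYn a ha h)
      rw [φp, φq, φC a ha, orient_ax_ax]
      have := zneg a ha h
      exact div_neg_of_neg_of_pos (by linarith only [this]) (by positivity)
  apply realize_of_rat φ
  · intro a ha b hb hab
    rcases cases a ha with rfl | rfl | ha' <;> rcases cases b hb with rfl | rfl | hb'
    · rfl
    · rw [φp, φq] at hab; exact absurd hab axne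
    · rw [φp, φC b hb'] at hab; exact absurd hab.symm (circ_ne_ax (zne b hb'))
    · rw [φp, φq] at hab; exact absurd hab.symm axne
    · rfl
    · rw [φq, φC b hb'] at hab; exact absurd hab.symm (circ_ne_ax (zne b hb'))
    · rw [φp, φC a ha'] at hab; exact absurd hab (circ_ne_ax (zne a ha'))
    · rw [φq, φC a ha'] at hab; exact absurd hab (circ_ne_ax (zne a ha'))
    · rw [φC a ha', φC b hb'] at hab
      by_contra hne
      exact zinj a ha' b hb' hne (circ_inj hab)
  · intro a ha b hb c hc
    by_cases hab : a = b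
    · subst hab; exact same_self φ a c
    by_cases hbc : b = c
    · subst hbc; exact (same_self φ b a).cyc.cyc
    by_cases hac : a = c
    · subst hac; exact (same_self φ a b).cyc
    rcases cases a ha with rfl | rfl | ha' <;> rcases cases b hb with rfl | rfl | hb' <;>
      rcases cases c hc with rfl | rfl | hc' <;>
      first
      | exact absurd rfl hab
      | exact absurd rfl hbc
      | exact absurd rfl hac
      | exact sCCC a ha' b hb' c hc'
      | exact sP _ hb' _ hc'
      | exact sQ _ hb' _ hc'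
      | exact (sP _ hc' _ ha').cyc.cyc
      | exact (sQ _ hc' _ ha').cyc.cyc
      | exact (sP _ ha' _ hb').cyc
      | exact (sQ _ ha' _ hb').cyc
      | exact sPQ _ hc'
      | exact (sPQ _ hc').swap
      | exact (sPQ _ hb').cyc
      | exact (sPQ _ hb').swap.cyc
      | exact (sPQ _ ha').cyc.cyc
      | exact (sPQ _ ha').swap.cyc.cyc
  · intro a ha b hb
    rcases cases a ha with rfl | rfl | ha' <;> rcases cases b hb with rfl | rfl | hb'
    · exact ⟨0, by simp⟩
    · rw [φp, φq]; exact rat_ax_ax
    · rw [φp, φC b hb', dist_comm]; exact rat_circ_ax0 (zAdm b hb')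
    · rw [φp, φq, dist_comm]; exact rat_ax_ax
    · exact ⟨0, by simp⟩
    · rw [φq, φC b hb', dist_comm]; exact rat_circ_axd (zAdm b hb')
    · rw [φp, φC a ha']; exact rat_circ_ax0 (zAdm a ha')
    · rw [φq, φC a ha']; exact rat_circ_axd (zAdm a ha')
    · rw [φC a ha', φC b hb']; exact rat_circ_circ (zAdm a ha') (zAdm b hb')

end Pool.Agent.Work.MP_677830_co
end

-- merged part: Pool.Agent.Work.MP_677830_co.One
section
namespace Pool.Agent.Work.MP_677830_co

lemma plucker (y a b c d : Pt) :
    orient y a b * orient y c d = orient y a c * orient y b d - orient y a d * orient y b c := by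
  unfold orient; ring

theorem one_ext (S : Finset Pt) (r : Pt) (hr : r ∈ S) (hgp : GeneralPosition S)
    (H : ∀ x ∈ S.erase r, ∀ u ∈ S.erase r, ∀ v ∈ S.erase r, ∀ w ∈ S.erase r,
      0 < orient u v x → 0 < orient v w x → 0 < orient w u x → False)
    (Hr : ∀ u ∈ S.erase r, ∀ v ∈ S.erase r, ∀ w ∈ S.erase r,
      0 < orient u v r → 0 < orient v w r → 0 < orient w u r → False) :
    IntegerRealizable S := by
  classical
  set C := S.erase r with hC
  have mC : ∀ x, x ∈ C ↔ x ≠ r ∧ x ∈ S := by intro x; simp [hC]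
  have hCS : ∀ x ∈ C, x ∈ S := fun x hx => ((mC x).mp hx).2
  have one : ∀ a ∈ C, ∀ b ∈ C, a ≠ b → orient r a b ≠ 0 := fun a ha b hb hab =>
    orient_ne_zero hgp hr (hCS a ha) (hCS b hb) ((mC a).mp ha).1.symm ((mC b).mp hb).1.symm hab
  have trans : ∀ a ∈ C, ∀ b ∈ C, ∀ c ∈ C, 0 < orient r a b → 0 < orient r b c →
      0 < orient r a c := by
    intro a ha b hb c hc h1 h2
    have hac : a ≠ c := by
      rintro rfl; rw [orient_swap'] at h2; linarith
    by_contra hle
    have hneg : orient r a c < 0 := lt_of_le_of_ne (not_lt.mp hle) (one a ha c hc hac)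
    exact Hr a ha b hb c hc (by rw [orient_cyc]; exact h1) (by rw [orient_cyc]; exact h2)
      (by rw [orient_cyc, orient_swap']; linarith)
  set rk : Pt → ℕ := fun a => (C.filter (fun b => 0 < orient r b a)).card with hrk
  have rklt : ∀ a ∈ C, ∀ b ∈ C, 0 < orient r a b → rk a < rk b := by
    intro a ha b hb h
    apply Finset.card_lt_card
    constructor
    · intro x hx
      rw [Finset.mem_filter] at hx ⊢
      exact ⟨hx.1, trans x hx.1 a ha b hb hx.2 h⟩
    · intro hsub
      have := hsub (Finset.mem_filter.mpr ⟨ha, h⟩)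
      rw [Finset.mem_filter, orient_self3] at this
      exact lt_irrefl _ this.2
  set near : Pt → Prop := fun y => ∃ x ∈ C, ∃ z ∈ C,
    0 < orient r x y ∧ 0 < orient r y z ∧ orient x y z < 0 with hnear
  have hfar : ∀ x ∈ C, ∀ y ∈ C, ∀ z ∈ C, 0 < orient r x y → 0 < orient r y z → ¬ near y →
      0 < orient x y z := by
    intro x hx y hy z hz h1 h2 hn
    have hxy : x ≠ y := by rintro rfl; rw [orient_self3] at h1; exact lt_irrefl _ h1
    have hyz : y ≠ z := by rintro rfl; rw [orient_self3] at h2; exact lt_irrefl _ h2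
    have hxz : x ≠ z := by rintro rfl; rw [orient_swap'] at h2; linarith only [h1, h2]
    by_contra hle
    exact hn ⟨x, hx, z, hz, h1, h2, lt_of_le_of_ne (not_lt.mp hle)
      (orient_ne_zero hgp (hCS x hx) (hCS y hy) (hCS z hz) hxy hxz hyz)⟩
  have c1 : ∀ x ∈ C, ∀ y ∈ C, ∀ z ∈ C, ∀ z' ∈ C, 0 < orient r x y → 0 < orient r y z →
      0 < orient r y z' → 0 < orient x y z → orient x y z' < 0 → False := by
    intro x hx y hy z hz z' hz' h1 h2 h3 h4 h5
    have pl := plucker y x r z' z
    have e1 : orient y x r = - orient r x y := by unfold orient; ring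
    have e2 : orient y x z' = - orient x y z' := orient_swap _ _ _
    have e3 : orient y r z = - orient r y z := orient_swap _ _ _
    have e4 : orient y x z = - orient x y z := orient_swap _ _ _
    have e5 : orient y r z' = - orient r y z' := orient_swap _ _ _
    rw [e1, e2, e3, e4, e5] at pl
    have h6 : 0 < orient y z' z := by
      by_contra hle
      have := mul_nonneg h1.le (neg_nonneg.mpr (not_lt.mp hle))
      linarith only [pl, this, h4, h3, h5, h2, mul_pos h4 h3, mul_pos (neg_pos.mpr h5) h2]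
    exact H y hy x hx z' hz' z hz (by rw [orient_swap']; linarith)
      (by rw [orient_cyc]; exact h6) (by rw [← orient_cyc]; exact h4)
  have c2 : ∀ x ∈ C, ∀ x' ∈ C, ∀ y ∈ C, ∀ z ∈ C, 0 < orient r x y → 0 < orient r x' y →
      0 < orient r y z → 0 < orient x y z → orient x' y z < 0 → False := by
    intro x hx x' hx' y hy z hz h1 h2 h3 h4 h5
    have pl := plucker y z r x x'
    have e1 : orient y z r = orient r y z := orient_cyc _ _ _
    have e2 : orient y z x = orient x y z := orient_cyc _ _ _
    have e3 : orient y r x' = orient r x' y := by unfold orient; ring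
    have e4 : orient y z x' = orient x' y z := orient_cyc _ _ _
    have e5 : orient y r x = orient r x y := by unfold orient; ring
    rw [e1, e2, e3, e4, e5] at pl
    have h6 : 0 < orient y x x' := by
      by_contra hle
      have := mul_nonneg h3.le (neg_nonneg.mpr (not_lt.mp hle))
      linarith only [pl, this, h4, h2, h5, h1, mul_pos h4 h2, mul_pos (neg_pos.mpr h5) h1]
    exact H y hy x hx x' hx' z hz (by rw [orient_cyc]; exact h6)
      (by rw [orient_swap']; linarith) (by rw [← orient_cyc]; exact h4)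
  have hnear' : ∀ x ∈ C, ∀ y ∈ C, ∀ z ∈ C, 0 < orient r x y → 0 < orient r y z → near y →
      orient x y z < 0 := by
    intro x hx y hy z hz h1 h2 ⟨x', hx', z', hz', g1, g2, g3⟩
    have hxy : x ≠ y := by rintro rfl; rw [orient_self3] at h1; exact lt_irrefl _ h1
    have hyz : y ≠ z := by rintro rfl; rw [orient_self3] at h2; exact lt_irrefl _ h2
    have hxz : x ≠ z := by rintro rfl; rw [orient_swap'] at h2; linarith only [h1, h2]
    have hyz' : y ≠ z' := by rintro rfl; rw [orient_self3] at g2; exact lt_irrefl _ g2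
    have hxz' : x ≠ z' := by rintro rfl; rw [orient_swap'] at g2; linarith
    by_contra hle
    have hpos : 0 < orient x y z := lt_of_le_of_ne (not_lt.mp hle)
      (orient_ne_zero hgp (hCS x hx) (hCS y hy) (hCS z hz) hxy hxz hyz).symm
    rcases lt_or_gt_of_ne
      (orient_ne_zero hgp (hCS x hx) (hCS y hy) (hCS z' hz') hxy hxz' hyz') with h | h
    · exact c1 x hx y hy z hz z' hz' h1 h2 g2 hpos h
    · exact c2 x hx x' hx' y hy z' hz' h1 g1 g2 h g3
  have hκ : ∀ a : Pt, ∃ κ : ℝ, 1 / ((rk a : ℝ) + 2) < κ ∧ κ < 1 / ((rk a : ℝ) + 1) ∧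
      (if near a then Adm (7 / 5 / κ) else Adm κ) := by
    intro a
    have h0 : (0 : ℝ) ≤ rk a := Nat.cast_nonneg _
    split_ifs with h
    · obtain ⟨z, hz, h1, h2⟩ := adm_dense (α := 7 / 5 * ((rk a : ℝ) + 1))
        (β := 7 / 5 * ((rk a : ℝ) + 2)) (by positivity) (by linarith only [])
      have hz0 : 0 < z := lt_trans (by clear * - rk a h1; positivity) h1
      refine ⟨7 / 5 / z, ?_, ?_, ?_⟩
      · rw [div_lt_div_iff₀ (by clear * - rk a h2 hz0; positivity) hz0]; linarith only [h2]
      · rw [div_lt_div_iff₀ hz0 (by clear * - rk a h1; positivity)]; linarith only [h1]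
      · have : 7 / 5 / (7 / 5 / z) = z := by field_simp
        rw [this]; exact hz
    · obtain ⟨z, hz, h1, h2⟩ := adm_dense (α := 1 / ((rk a : ℝ) + 2))
        (β := 1 / ((rk a : ℝ) + 1)) (by positivity)
        (by rw [div_lt_div_iff₀ (by positivity) (by positivity)]; linarith)
      exact ⟨z, h1, h2, hz⟩
  choose κ κ1 κ2 κ3 using hκ
  have κ0 : ∀ a, 0 < κ a := fun a => lt_trans (by clear * - rk a κ1; positivity) (κ1 a)
  have κlt1 : ∀ a, κ a < 1 := fun a => lt_of_lt_of_le (κ2 a) (by
    clear * - rk a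
    rw [div_le_one (by positivity)]; have : (0 : ℝ) ≤ rk a := Nat.cast_nonneg _; linarith only [])
  have κlt : ∀ a ∈ C, ∀ b ∈ C, 0 < orient r a b → κ b < κ a := by
    clear * - C r rk rklt κ κ1 κ2
    intro a ha b hb h
    have h1 : (rk a : ℝ) + 1 ≤ rk b := by exact_mod_cast rklt a ha b hb h
    have h2 : 1 / ((rk b : ℝ) + 1) ≤ 1 / ((rk a : ℝ) + 2) :=
      one_div_le_one_div_of_le (by positivity) (by linarith only [h1])
    linarith only [h2, κ1, κ2, κ1 a, κ2 b]
  have κlt' : ∀ a ∈ C, ∀ b ∈ C, κ b < κ a → 0 < orient r a b := by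
    intro a ha b hb h
    have hab : a ≠ b := by rintro rfl; exact lt_irrefl _ h
    rcases lt_or_gt_of_ne (one a ha b hb hab) with h1 | h1
    · have := κlt b hb a ha (by rw [orient_swap']; linarith)
      linarith
    · exact h1
  have κinj : ∀ a ∈ C, ∀ b ∈ C, a ≠ b → κ a ≠ κ b := by
    intro a ha b hb hab h
    rcases lt_or_gt_of_ne (one a ha b hb hab) with h1 | h1
    · have := κlt b hb a ha (by rw [orient_swap']; linarith)
      linarith
    · have := κlt a ha b hb h1
      linarith
  set z : Pt → ℝ := fun a => if near a then 7 / 5 / κ a else κ a with hz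
  have zN : ∀ a, near a → z a = 7 / 5 / κ a := fun a h => by simp only [hz]; rw [if_pos h]
  have zF : ∀ a, ¬ near a → z a = κ a := fun a h => by simp only [hz]; rw [if_neg h]
  have zAdm : ∀ a, Adm (z a) := by
    intro a
    have := κ3 a
    by_cases h : near a
    · rw [zN a h]; rwa [if_pos h] at this
    · rw [zF a h]; rwa [if_neg h] at this
  have big : ∀ a, 7 / 5 < 7 / 5 / κ a := by
    intro a; rw [lt_div_iff₀ (κ0 a)]; linarith only [κlt1, κlt1 a]
  have anti : ∀ a b, κ b < κ a → 7 / 5 / κ a < 7 / 5 / κ b := fun a b h =>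
    div_lt_div_of_pos_left (by norm_num) (κ0 b) h
  have zpos : ∀ a, 0 < z a := by
    intro a
    by_cases h : near a
    · rw [zN a h]; linarith only [big, big a]
    · rw [zF a h]; exact κ0 a
  set φ : Pt → Pt := fun a => if a = r then ax 6 else circ (z a) with hφ
  have φr : φ r = ax 6 := by simp [hφ]
  have φC : ∀ a ∈ C, φ a = circ (z a) := by
    intro a ha; simp [hφ, ((mC a).mp ha).1]
  have cases : ∀ a ∈ S, a = r ∨ a ∈ C := by
    intro a ha
    by_cases h1 : a = r
    · exact Or.inl h1
    exact Or.inr ((mC a).mpr ⟨h1, ha⟩)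
  have tR : ∀ a ∈ C, ∀ b ∈ C, κ b < κ a → 0 < orient (φ r) (φ a) (φ b) := by
    clear * - C κ φ r φr z φC κ0 near zN anti big zF κlt1
    intro a ha b hb h
    rw [φr, φC a ha, φC b hb]
    apply orient_ax_pos
    have ka := κ0 a
    have kb := κ0 b
    by_cases na : near a <;> by_cases nb : near b
    · rw [zN a na, zN b nb]
      apply mul_pos_of_neg_of_neg (by linarith only [anti, h, anti a b h])
      linarith only [big, big a, big b, mul_pos_of_neg_of_neg (Mathlib.Tactic.Linarith.sub_neg_of_lt (big a)) (Mathlib.Tactic.Linarith.sub_neg_of_lt (big b))]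
    · rw [zN a na, zF b nb]
      apply mul_pos (by linarith only [big, κlt1, big a, κlt1 b])
      have : 7 / 5 / κ a * κ b = 7 / 5 * (κ b / κ a) := by ring
      have h2 := (div_lt_one ka).mpr h
      rw [this]; linarith only [h2]
    · rw [zF a na, zN b nb]
      apply mul_pos_of_neg_of_neg (by linarith only [h, kb, big, κlt1, big b, κlt1 a])
      have : κ a * (7 / 5 / κ b) = 7 / 5 * (κ a / κ b) := by ring
      have h2 := (one_lt_div kb).mpr h
      rw [this]; linarith only [h2]
    · rw [zF a na, zF b nb]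
      apply mul_pos (by linarith)
      linarith only [kb, κlt1, h, ka, κlt1 a, κlt1 b, mul_pos_of_neg_of_neg (Mathlib.Tactic.Linarith.sub_neg_of_lt h) (Mathlib.Tactic.Linarith.sub_neg_of_lt h), mul_pos_of_neg_of_neg (Mathlib.Tactic.Linarith.sub_neg_of_lt h) (Mathlib.Tactic.Linarith.sub_neg_of_lt kb), mul_pos_of_neg_of_neg (Mathlib.Tactic.Linarith.sub_neg_of_lt h) (Mathlib.Tactic.Linarith.sub_neg_of_lt (κlt1 a)), mul_pos_of_neg_of_neg (Mathlib.Tactic.Linarith.sub_neg_of_lt ka) (Mathlib.Tactic.Linarith.sub_neg_of_lt (κlt1 a))]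
  have sR : ∀ a ∈ C, ∀ b ∈ C, Same φ r a b := by
    intro a ha b hb
    by_cases hab : a = b
    · subst hab; exact (same_self φ a r).cyc.cyc
    rcases lt_or_gt_of_ne (κinj a ha b hb hab) with h1 | h1
    · exact (same_pos (tR b hb a ha h1) (κlt' b hb a ha h1)).swap.cyc
    · exact same_pos (tR a ha b hb h1) (κlt' a ha b hb h1)
  have sC : ∀ a ∈ C, ∀ b ∈ C, ∀ c ∈ C, Same φ a b c := by
    clear * - φ C κ κinj r κlt' near z φC zN anti zF big κlt1 hnear' hfar
    apply same_of_sorted κ κinj
    intro a ha b hb c hc h1 h2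
    have o1 := κlt' a ha b hb h1
    have o2 := κlt' b hb c hc h2
    by_cases nb : near b
    · apply same_neg _ (hnear' a ha b hb c hc o1 o2 nb)
      rw [φC a ha, φC b hb, φC c hc]
      have hab : z a < z b := by
        rw [zN b nb]
        by_cases na : near a
        · rw [zN a na]; exact anti a b h1
        · rw [zF a na]; linarith only [big, κlt1, big b, κlt1 a]
      by_cases nc : near c
      · have hbc : z b < z c := by rw [zN b nb, zN c nc]; exact anti b c h2
        have := orient_circ_pos hbc hab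
        rw [orient_swap, orient_cyc] at this
        linarith only [this]
      · have hca : z c < z a := by
          rw [zF c nc]
          by_cases na : near a
          · rw [zN a na]; linarith only [big, κlt1, big a, κlt1 c]
          · rw [zF a na]; linarith
        have := orient_circ_pos hab hca
        rw [orient_swap] at this
        linarith
    · apply same_pos _ (hfar a ha b hb c hc o1 o2 nb)
      rw [φC a ha, φC b hb, φC c hc]
      have hab : z b < z a := by
        rw [zF b nb]
        by_cases na : near a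
        · rw [zN a na]; linarith only [big, κlt1, big a, κlt1 b]
        · rw [zF a na]; exact h1
      by_cases nc : near c
      · have hac : z a < z c := by
          rw [zN c nc]
          by_cases na : near a
          · rw [zN a na]; exact anti a c (by linarith only [h1, h2])
          · rw [zF a na]; linarith only [big, κlt1, big c, κlt1 a]
        have := orient_circ_pos hac hab
        rw [← orient_cyc] at this
        exact this
      · have hbc : z c < z b := by rw [zF b nb, zF c nc]; exact h2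
        exact orient_circ_pos hab hbc
  apply realize_of_rat φ
  · intro a ha b hb hab
    rcases cases a ha with rfl | ha' <;> rcases cases b hb with rfl | hb'
    · rfl
    · rw [φr, φC b hb'] at hab; exact absurd hab.symm (circ_ne_ax (zpos b).ne')
    · rw [φr, φC a ha'] at hab; exact absurd hab (circ_ne_ax (zpos a).ne')
    · by_contra hne
      rcases lt_or_gt_of_ne (κinj a ha' b hb' hne) with h1 | h1
      · have := tR b hb' a ha' h1
        rw [hab, orient_self3] at this; exact lt_irrefl _ this
      · have := tR a ha' b hb' h1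
        rw [hab, orient_self3] at this; exact lt_irrefl _ this
  · intro a ha b hb c hc
    by_cases hab : a = b
    · subst hab; exact same_self φ a c
    by_cases hbc : b = c
    · subst hbc; exact (same_self φ b a).cyc.cyc
    by_cases hac : a = c
    · subst hac; exact (same_self φ a b).cyc
    rcases cases a ha with rfl | ha' <;> rcases cases b hb with rfl | hb' <;>
      rcases cases c hc with rfl | hc' <;>
      first
      | exact absurd rfl hab
      | exact absurd rfl hbc
      | exact absurd rfl hac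
      | exact sC a ha' b hb' c hc'
      | exact sR _ hb' _ hc'
      | exact (sR _ hc' _ ha').cyc.cyc
      | exact (sR _ ha' _ hb').cyc
  · intro a ha b hb
    rcases cases a ha with rfl | ha' <;> rcases cases b hb with rfl | hb'
    · exact ⟨0, by simp⟩
    · rw [φr, φC b hb', dist_comm]; exact rat_circ_ax6 (zAdm b)
    · rw [φr, φC a ha']; exact rat_circ_ax6 (zAdm a)
    · rw [φC a ha', φC b hb']; exact rat_circ_circ (zAdm a) (zAdm b)

lemma small_case (S : Finset Pt) (h : S.card ≤ 1) : IntegerRealizable S := by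
  rw [Finset.card_le_one] at h
  refine ⟨id, fun a _ b _ hab => hab, fun a _ b _ c _ => rfl, fun a ha b hb => ⟨0, ?_⟩⟩
  rw [h a ha b hb]; simp

lemma no_tri {S : Finset Pt} {x : Pt} (hx : x ∉ convexHull ℝ ((S : Set Pt) \ {x})) :
    ∀ u ∈ S, ∀ v ∈ S, ∀ w ∈ S,
      ¬ (0 < orient u v x ∧ 0 < orient v w x ∧ 0 < orient w u x) := by
  rintro u hu v hv w hw ⟨h1, h2, h3⟩
  apply hx
  refine mem_hull_of_tri ⟨hu, ?_⟩ ⟨hv, ?_⟩ ⟨hw, ?_⟩ h1 h2 h3
  · rintro rfl; rw [orient_self2] at h1; exact lt_irrefl _ h1
  · rintro rfl; rw [orient_self2] at h2; exact lt_irrefl _ h2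
  · rintro rfl; rw [orient_self2] at h3; exact lt_irrefl _ h3

theorem two_interior (S : Finset Pt) (hgp : GeneralPosition S)
    (h : {x ∈ (S : Set Pt) | x ∈ convexHull ℝ ((S : Set Pt) \ {x})}.ncard ≤ 2) :
    IntegerRealizable S := by
  classical
  by_cases hS : S.card ≤ 1
  · exact small_case S hS
  set I := S.filter (fun x => x ∈ convexHull ℝ ((S : Set Pt) \ {x})) with hI
  have hI2 : I.card ≤ 2 := by
    have : {x ∈ (S : Set Pt) | x ∈ convexHull ℝ ((S : Set Pt) \ {x})} = (I : Set Pt) := by
      ext x; simp [hI]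
    rw [this, Set.ncard_coe_finset] at h; exact h
  obtain ⟨J, hIJ, hJS, hJ⟩ := Finset.exists_subsuperset_card_eq (Finset.filter_subset _ S) hI2
    (by omega : 2 ≤ S.card)
  obtain ⟨p, q, hpq, rfl⟩ := Finset.card_eq_two.mp hJ
  apply two_main S p q (hJS (by simp)) (hJS (by simp)) hpq hgp
  intro x hx hxp hxq
  apply no_tri
  intro hmem
  have := hIJ (Finset.mem_filter.mpr ⟨hx, hmem⟩)
  simp [hxp, hxq] at this

theorem convex_plus_one (S : Finset Pt) (hgp : GeneralPosition S) (r : Pt) (hr : r ∈ S)
    (h : ConvexIndependent ℝ (Subtype.val : ↥((S : Set Pt) \ {r}) → Pt)) :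
    IntegerRealizable S := by
  classical
  rw [convexIndependent_set_iff_notMem_convexHull_sdiff] at h
  by_cases hin : r ∈ convexHull ℝ ((S : Set Pt) \ {r})
  · apply two_interior S hgp
    refine le_trans (Set.ncard_le_ncard (t := {r}) ?_ (Set.finite_singleton r)) (by simp)
    rintro x ⟨hx, hx2⟩
    by_contra hxr
    have hxr' : x ≠ r := hxr
    apply h x ⟨hx, hxr⟩
    set T : Set Pt := ((S : Set Pt) \ {r}) \ {x} with hT
    have e1 : (S : Set Pt) \ {x} = insert r T := by
      ext y; simp only [hT, Set.mem_sdiff, Set.mem_singleton_iff, Set.mem_insert_iff]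
      constructor
      · rintro ⟨a, b⟩; by_cases h : y = r
        · exact Or.inl h
        · exact Or.inr ⟨⟨a, h⟩, b⟩
      · rintro (rfl | ⟨⟨a, -⟩, b⟩)
        · exact ⟨hr, hxr'.symm⟩
        · exact ⟨a, b⟩
    have e2 : (S : Set Pt) \ {r} = insert x T := by
      ext y; simp only [hT, Set.mem_sdiff, Set.mem_singleton_iff, Set.mem_insert_iff]
      constructor
      · rintro ⟨a, b⟩; by_cases h : y = x
        · exact Or.inl h
        · exact Or.inr ⟨⟨a, b⟩, h⟩
      · rintro (rfl | ⟨⟨a, b⟩, -⟩)
        · exact ⟨hx, hxr'⟩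
        · exact ⟨a, b⟩
    rw [e1] at hx2
    rw [e2] at hin
    rcases T.eq_empty_or_nonempty with hT0 | hT0
    · rw [hT0] at hx2; simp at hx2; exact absurd hx2 hxr'
    rw [convexHull_insert hT0] at hx2 hin
    obtain ⟨r', hr', y, hy, a, b, ha, hb, hab, e3⟩ := mem_convexJoin.mp hx2
    obtain ⟨x', hx', y', hy', a', b', ha', hb', hab', e4⟩ := mem_convexJoin.mp hin
    rw [Set.mem_singleton_iff] at hr' hx'
    subst hr' hx'
    have hb0 : 0 < b := by
      rcases hb.lt_or_eq with h | h
      · exact h
      · exfalso; apply hxr'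
        have : a = 1 := by linarith only [hab, h, hb]
        rw [← e3, this, ← h]; simp
    have hd : 0 < a * b' + b := by positivity
    have m := convex_convexHull ℝ T hy' hy (a := a * b' / (a * b' + b)) (b := b / (a * b' + b))
      (by positivity) (by positivity) (by field_simp)
    have c0 := congrArg (fun v : Pt => v 0) e3
    have c1 := congrArg (fun v : Pt => v 1) e3
    have d0 := congrArg (fun v : Pt => v 0) e4
    have d1 := congrArg (fun v : Pt => v 1) e4
    simp only [PiLp.add_apply, PiLp.smul_apply, smul_eq_mul] at c0 c1 d0 d1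
    have : x' = (a * b' / (a * b' + b)) • y' + (b / (a * b' + b)) • y := by
      apply pt_ext
      · simp only [PiLp.add_apply, PiLp.smul_apply, smul_eq_mul]
        field_simp
        linear_combination (-1 : ℝ) * c0 - a * d0 + (x' 0) * hab + a * (x' 0) * hab'
      · simp only [PiLp.add_apply, PiLp.smul_apply, smul_eq_mul]
        field_simp
        linear_combination (-1 : ℝ) * c1 - a * d1 + (x' 1) * hab + a * (x' 1) * hab'
    rw [this]; exact m
  · have e : ((S.erase r : Finset Pt) : Set Pt) = (S : Set Pt) \ {r} := by simp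
    apply one_ext S r hr hgp
    · intro x hx u hu v hv w hw h1 h2 h3
      refine no_tri (S := S.erase r) (x := x) ?_ u hu v hv w hw ⟨h1, h2, h3⟩
      rw [e]; exact h x (by rw [← e]; exact hx)
    · intro u hu v hv w hw h1 h2 h3
      exact no_tri hin u (Finset.mem_of_mem_erase hu) v (Finset.mem_of_mem_erase hv) w
        (Finset.mem_of_mem_erase hw) ⟨h1, h2, h3⟩

end Pool.Agent.Work.MP_677830_co
end
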